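import Mathlib

/-! Colourings of line arrangements without monochromatic cells: definitions. -/

namespace Pool.Agent.Lib.MP_bfa5ed_co

variable {E : Type} [NormedAddCommGroup E] [NormedSpace ℝ E]

/-- `L` is a set of lines in general position: no two are parallel and
no point lies on three of them. -/
def GeneralPosition (L : Finset (AffineSubspace ℝ E)) : Prop :=
  (∀ l ∈ L, Module.finrank ℝ l.direction = 1) ∧
  (∀ l₁ ∈ L, ∀ l₂ ∈ L, l₁ ≠ l₂ → ¬ l₁.Parallel l₂) ∧
  (∀ l₁ ∈ L, ∀ l₂ ∈ L, ∀ l₃ ∈ L, l₁ ≠ l₂ → l₁ ≠ l₃ → l₂ ≠ l₃ →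
    ∀ p, ¬ (p ∈ l₁ ∧ p ∈ l₂ ∧ p ∈ l₃))

/-- `C` is a cell: a connected component of the complement of the union of the lines. -/
def IsCell (L : Finset (AffineSubspace ℝ E)) (C : Set E) : Prop :=
  ∃ p, (∀ l ∈ L, p ∉ l) ∧ C = connectedComponentIn {q | ∀ l ∈ L, q ∉ l} p

/-- The line `l` bounds `C`: its intersection with the boundary of `C` contains a segment of
positive length. -/
def Bounds (l : AffineSubspace ℝ E) (C : Set E) : Prop :=
  ∃ p q, p ≠ q ∧ segment ℝ p q ⊆ (l : Set E) ∩ frontier C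

/-- Every set of `n` lines of `E` in general position has a `k`-colouring with no monochromatic
cell. -/
def Colourable (E : Type) [NormedAddCommGroup E] [NormedSpace ℝ E] (n k : ℕ) : Prop :=
  ∀ L : Finset (AffineSubspace ℝ E), L.card = n → GeneralPosition L →
    ∃ χ : L → Fin k, ∀ C, IsCell L C → ¬ ∃ γ : Fin k, ∀ l : L, Bounds l.1 C → χ l = γ

end Pool.Agent.Lib.MP_bfa5ed_co
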