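import Mathlib
import Pool.Agent.Lib.MP_bfa5ed_co.Defs

-- part Pool.Agent.Lib.MP_bfa5ed_co.Container
section

open Finset

namespace Pool.Agent.Lib.MP_bfa5ed_co

section

open Classical

variable {α β : Type} (I : α → β → Prop) (L : Finset β)

/-- three distinct points on a common line of `L` -/
def Col (u w v : α) : Prop := u ≠ w ∧ u ≠ v ∧ w ≠ v ∧ ∃ l ∈ L, I u l ∧ I w l ∧ I v l

def Indep (S : Finset α) : Prop := ∀ u ∈ S, ∀ w ∈ S, ∀ v ∈ S, ¬ Col I L u w v

noncomputable def link (B : Finset α) (v : α) : Finset (α × α) :=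
  (B ×ˢ B).filter fun p => Col I L p.1 p.2 v

variable {I L}

lemma Col.symm {u w v : α} (h : Col I L u w v) : Col I L w u v := by
  obtain ⟨h1, h2, h3, l, hl, a, b, c⟩ := h
  exact ⟨h1.symm, h3, h2, l, hl, b, a, c⟩

lemma cubic_bound (x μ : ℕ) (hμ : 8 ≤ μ) :
    2 * μ ^ 2 * x ≤ 32 * (x * ((x - 1) * (x - 1) - (x - 1))) + μ ^ 3 := by
  rcases le_or_gt (2 * x) μ with h | h
  · have : 2 * μ ^ 2 * x ≤ μ ^ 3 := by
      calc 2 * μ ^ 2 * x = μ ^ 2 * (2 * x) := by ring
        _ ≤ μ ^ 2 * μ := Nat.mul_le_mul_left _ h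
        _ = μ ^ 3 := by ring
    omega
  · obtain ⟨y, rfl⟩ : ∃ y, x = y + 5 := ⟨x - 5, by omega⟩
    have e : (y + 5 - 1) * (y + 5 - 1) - (y + 5 - 1) = (y + 4) * (y + 3) := by
      have : y + 5 - 1 = y + 4 := by omega
      rw [this]
      have : (y + 4) * (y + 4) = (y + 4) * (y + 3) + (y + 4) := by ring
      omega
    rw [e]
    have h1 : μ ^ 2 ≤ (2 * (y + 5)) ^ 2 := Nat.pow_le_pow_left h.le 2
    have h2 : (2 * (y + 5)) ^ 2 ≤ 16 * ((y + 4) * (y + 3)) := by nlinarith
    have h3 : 2 * μ ^ 2 * (y + 5) ≤ 2 * (16 * ((y + 4) * (y + 3))) * (y + 5) :=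
      Nat.mul_le_mul_right _ (Nat.mul_le_mul_left _ (h1.trans h2))
    nlinarith

lemma supersat (huniq : ∀ x y l l', x ≠ y → l ∈ L → l' ∈ L → I x l → I y l → I x l' → I y l' →
      l = l') {W Λ μ : ℕ} (hΛ : L.card ≤ Λ) (hμ : 8 ≤ μ) (Z : Finset α) (hZ : Z.Nonempty)
    (hrich : ∀ x ∈ Z, W ≤ (L.filter (I x)).card) (hbig : Λ * μ ≤ Z.card * W) :
    ∃ v ∈ Z, μ ^ 2 * W ≤ 32 * (link I L Z v).card := by
  by_contra hc
  push Not at hc
  set x : β → ℕ := fun l => (Z.filter fun z => I z l).card with hx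
  set g : ℕ → ℕ := fun y => (y - 1) * (y - 1) - (y - 1) with hg
  have h1 : ∀ v ∈ Z, ∑ l ∈ L.filter (I v), g (x l) ≤ (link I L Z v).card := by
    intro v hv
    have e : ∀ l ∈ L.filter (I v), g (x l) = ((Z.filter fun z => I z l).erase v).offDiag.card := by
      intro l hl
      rw [offDiag_card, card_erase_of_mem (mem_filter.mpr ⟨hv, (mem_filter.mp hl).2⟩)]
    rw [sum_congr rfl e, ← card_biUnion]
    · refine card_le_card fun p hp => ?_
      obtain ⟨l, hl, hp⟩ := mem_biUnion.mp hp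
      simp only [mem_offDiag, mem_erase, mem_filter] at hp hl
      obtain ⟨⟨a1, a2, a3⟩, ⟨b1, b2, b3⟩, c⟩ := hp
      exact mem_filter.mpr ⟨mem_product.mpr ⟨a2, b2⟩, c, a1, b1, l, hl.1, a3, b3, hl.2⟩
    · intro l hl l' hl' hne
      rw [Function.onFun, disjoint_left]
      intro p hp hp'
      simp only [mem_offDiag, mem_erase, mem_filter, coe_filter, Set.mem_ofPred_eq] at hp hp' hl hl'
      exact hne (huniq _ _ _ _ hp.2.2 hl.1 hl'.1 hp.1.2.2 hp.2.1.2.2 hp'.1.2.2 hp'.2.1.2.2)
  have swap : ∀ f : β → ℕ, ∑ v ∈ Z, ∑ l ∈ L.filter (I v), f l = ∑ l ∈ L, x l * f l := by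
    intro f
    simp only [sum_filter]
    rw [sum_comm]
    refine sum_congr rfl fun l _ => ?_
    rw [← sum_filter, sum_const, smul_eq_mul]
  have h2 : ∑ l ∈ L, x l * g (x l) ≤ ∑ v ∈ Z, (link I L Z v).card := by
    rw [← swap]; exact sum_le_sum h1
  have h3 : Z.card * W ≤ ∑ l ∈ L, x l := by
    have := swap fun _ => 1
    simp only [sum_const, smul_eq_mul, mul_one] at this
    rw [← this, ← smul_eq_mul, ← sum_const]
    exact sum_le_sum hrich
  have h4 : ∑ l ∈ L, 2 * μ ^ 2 * x l ≤ ∑ l ∈ L, (32 * (x l * g (x l)) + μ ^ 3) :=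
    sum_le_sum fun l _ => cubic_bound _ _ hμ
  rw [← mul_sum, sum_add_distrib, ← mul_sum, sum_const, smul_eq_mul] at h4
  have h5 : ∑ v ∈ Z, 32 * (link I L Z v).card < ∑ v ∈ Z, μ ^ 2 * W := sum_lt_sum_of_nonempty hZ hc
  rw [← mul_sum, sum_const, smul_eq_mul] at h5
  have h6 : L.card * μ ^ 3 ≤ μ ^ 2 * (Z.card * W) := by
    calc L.card * μ ^ 3 ≤ Λ * μ ^ 3 := Nat.mul_le_mul_right _ hΛ
      _ = μ ^ 2 * (Λ * μ) := by ring
      _ ≤ _ := Nat.mul_le_mul_left _ hbig
  have h7 : 2 * μ ^ 2 * (Z.card * W) ≤ 2 * μ ^ 2 * ∑ l ∈ L, x l := Nat.mul_le_mul_left _ h3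
  have h8 : Z.card * (μ ^ 2 * W) = μ ^ 2 * (Z.card * W) := by ring
  have h9 : 2 * μ ^ 2 * (Z.card * W) = 2 * (μ ^ 2 * (Z.card * W)) := by ring
  omega

noncomputable def dg (A : Finset α) (G : Finset (α × α × α)) (u : α) : ℕ :=
  (G.filter fun t => t.1 = u ∧ t.2.1 ∈ A).card

noncomputable def eg (A : Finset α) (G : Finset (α × α × α)) : ℕ :=
  (G.filter fun t => t.1 ∈ A ∧ t.2.1 ∈ A).card

lemma first_in_le (A R : Finset α) (G : Finset (α × α × α)) (c : ℕ) (hd : ∀ u ∈ R, dg A G u ≤ c) :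
    (G.filter fun t => t.1 ∈ R ∧ t.2.1 ∈ A).card ≤ R.card * c := by
  have : (G.filter fun t => t.1 ∈ R ∧ t.2.1 ∈ A)
      ⊆ R.biUnion fun u => G.filter fun t => t.1 = u ∧ t.2.1 ∈ A := by
    intro t ht
    simp only [mem_filter, mem_biUnion] at ht ⊢
    exact ⟨t.1, ht.2.1, ht.1, rfl, ht.2.2⟩
  refine (card_le_card this).trans (card_biUnion_le.trans ?_)
  rw [← smul_eq_mul, ← sum_const]
  exact sum_le_sum hd

lemma eg_remove (A R : Finset α) (G : Finset (α × α × α)) (c : ℕ) (hd : ∀ u ∈ R, dg A G u ≤ c)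
    (hsym : ∀ t ∈ G, (t.2.1, t.1, t.2.2) ∈ G) : eg A G ≤ eg (A \ R) G + 2 * (R.card * c) := by
  have h1 := first_in_le A R G c hd
  have h2 : (G.filter fun t => t.2.1 ∈ R ∧ t.1 ∈ A).card
      ≤ (G.filter fun t => t.1 ∈ R ∧ t.2.1 ∈ A).card := by
    refine card_le_card_of_injOn (fun t => (t.2.1, t.1, t.2.2)) ?_ ?_
    · intro t ht
      simp only [coe_filter, Set.mem_ofPred_eq] at ht ⊢
      exact ⟨hsym t ht.1, ht.2⟩
    · rintro ⟨a, b, c⟩ _ ⟨a', b', c'⟩ _ h
      simp only [Prod.mk.injEq] at h ⊢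
      tauto
  have h3 : (G.filter fun t => t.1 ∈ A ∧ t.2.1 ∈ A) ⊆
      (G.filter fun t => t.1 ∈ A \ R ∧ t.2.1 ∈ A \ R) ∪
      ((G.filter fun t => t.1 ∈ R ∧ t.2.1 ∈ A) ∪ (G.filter fun t => t.2.1 ∈ R ∧ t.1 ∈ A)) := by
    intro t ht
    simp only [mem_filter, mem_union, mem_sdiff] at ht ⊢
    tauto
  have h4 := (card_le_card h3).trans ((card_union_le _ _).trans
    (Nat.add_le_add_left (card_union_le _ _) _))
  unfold eg
  omega

lemma dg_mono {A A' : Finset α} (h : A' ⊆ A) (G : Finset (α × α × α)) (u : α) :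
    dg A' G u ≤ dg A G u := by
  refine card_le_card fun t ht => ?_
  simp only [mem_filter] at ht ⊢
  exact ⟨ht.1, ht.2.1, h ht.2.2⟩

variable (I L) in
noncomputable def fam (V : Finset α) (m : ℕ) (A F : Finset α) : Finset (Finset α) :=
  (V.powersetCard m).filter fun S => Indep I L S ∧ F ⊆ S ∧ S ⊆ A ∪ F

variable (I L) in
def Bd (V : Finset α) (m a M : ℕ) : Prop :=
  ∀ C ⊆ V, C.card ≤ a → (fam I L V m C ∅).card ≤ M

lemma fam_sub {V : Finset α} {m : ℕ} {A F C S : Finset α} (h : S ∈ fam I L V m A F)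
    (hC : S ⊆ C) : S ∈ fam I L V m C ∅ := by
  simp only [fam, mem_filter] at h ⊢
  exact ⟨h.1, h.2.1, empty_subset _, by simpa using hC⟩

lemma round_aux (V : Finset α)
    (huniq : ∀ x y l l', x ≠ y → l ∈ L → l' ∈ L → I x l → I y l → I x l' → I y l' → l = l')
    {k W Λ μ D z t a' m M : ℕ} (hk : ∀ l ∈ L, (V.filter fun x => I x l).card ≤ k)
    (hrich : ∀ x ∈ V, W ≤ (L.filter (I x)).card) (hΛ : L.card ≤ Λ) (hμ : 8 ≤ μ)
    (hz : Λ * μ ≤ z * W) (hD : 32 * D ^ 2 ≤ μ ^ 2 * W) (hD0 : 0 < D) (ha' : z + t ≤ a')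
    (hM : Bd I L V m a' M) (j : ℕ) :
    ∀ (A F : Finset α) (G : Finset (α × α × α)), A ⊆ V → F ⊆ V → Disjoint A F →
      (∀ s ∈ G, Col I L s.1 s.2.1 s.2.2 ∧ s.2.2 ∈ F) → (∀ s ∈ G, (s.2.1, s.1, s.2.2) ∈ G) →
      (∀ u ∈ A, dg A G u ≤ D + k) → 3 * (D + k) * A.card ≤ eg A G + j * D ^ 2 →
      F.card + j ≤ t → (fam I L V m A F).card ≤ (V.card + 1) ^ j * M := by
  induction j with
  | zero =>
    intro A F G hA hF hdisj hG hsym hd hpot hFt
    have h1 : eg A G ≤ A.card * (D + k) := first_in_le A A G _ hd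
    have h2 : A.card = 0 := by
      by_contra h
      have : 0 < A.card * (D + k) := Nat.mul_pos (Nat.pos_of_ne_zero h) (by omega)
      have e : 3 * (D + k) * A.card = 3 * (A.card * (D + k)) := by ring
      omega
    rw [card_eq_zero] at h2
    subst h2
    rw [pow_zero, one_mul]
    refine le_trans (card_le_card fun S hS => fam_sub hS ?_) (hM F hF (by omega))
    simp only [fam, mem_filter] at hS
    simpa using hS.2.2.2
  | succ j ih =>
    intro A F G hA hF hdisj hG hsym hd hpot hFt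
    set B := A.filter fun u => dg A G u < D with hB
    set Z := B.filter fun v => (link I L B v).card < D ^ 2 with hZ
    have hBA : B ⊆ A := filter_subset _ _
    have hZB : Z ⊆ B := filter_subset _ _
    have hZc : Z.card ≤ z := by
      by_contra hc
      push Not at hc
      obtain ⟨v, hv, hl⟩ := supersat huniq hΛ hμ Z (card_pos.mp (by omega))
        (fun x hx => hrich x (hA (hBA (hZB hx)))) (hz.trans (Nat.mul_le_mul_right _ hc.le))
      have h1 : (link I L Z v).card ≤ (link I L B v).card :=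
        card_le_card (filter_subset_filter _ (product_subset_product hZB hZB))
      have h2 := (mem_filter.mp hv).2
      omega
    have cover : fam I L V m A F ⊆ fam I L V m (Z ∪ F) ∅ ∪
        (A \ Z).biUnion fun v => (fam I L V m A F).filter fun S => v ∈ S := by
      intro S hS
      by_cases h : ∃ v ∈ A \ Z, v ∈ S
      · obtain ⟨v, hv, hvS⟩ := h
        exact mem_union_right _ (mem_biUnion.mpr ⟨v, hv, mem_filter.mpr ⟨hS, hvS⟩⟩)
      · push Not at h
        refine mem_union_left _ (fam_sub hS fun x hx => ?_)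
        have := (mem_filter.mp hS).2.2.2 hx
        rcases mem_union.mp this with h1 | h1
        · by_cases h2 : x ∈ Z
          · exact mem_union_left _ h2
          · exact absurd hx (h x (mem_sdiff.mpr ⟨h1, h2⟩))
        · exact mem_union_right _ h1
    have hfirst : (fam I L V m (Z ∪ F) ∅).card ≤ M :=
      hM _ (union_subset (hZB.trans (hBA.trans hA)) hF) ((card_union_le _ _).trans (by omega))
    have hstep : ∀ v ∈ A \ Z,
        ((fam I L V m A F).filter fun S => v ∈ S).card ≤ (V.card + 1) ^ j * M := by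
      intro v hv
      obtain ⟨hvA, hvZ⟩ := mem_sdiff.mp hv
      have hvF : v ∉ F := disjoint_left.mp hdisj hvA
      have hF' : insert v F ⊆ V := insert_subset (hA hvA) hF
      have hFc : (insert v F).card + j ≤ t := by rw [card_insert_of_notMem hvF]; omega
      rcases ((fam I L V m A F).filter fun S => v ∈ S).eq_empty_or_nonempty with he | ⟨S0, hS0⟩
      · rw [he]; simp
      obtain ⟨hS0, hvS0⟩ := mem_filter.mp hS0
      obtain ⟨-, hS0i, hS0F, -⟩ := mem_filter.mp hS0
      by_cases hvB : v ∈ B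
      · -- the link of v is added to the graph
        have hlink : D ^ 2 ≤ (link I L B v).card := by
          by_contra hc
          exact hvZ (mem_filter.mpr ⟨hvB, not_le.mp hc⟩)
        set N : Finset (α × α × α) := (link I L B v).image fun p => (p.1, p.2, v) with hN
        have hNc : N.card = (link I L B v).card := by
          refine card_image_of_injective _ ?_
          rintro ⟨a, b⟩ ⟨a', b'⟩ h
          simp only [Prod.mk.injEq] at h ⊢
          tauto
        have hNm : ∀ s ∈ N, s.1 ∈ B ∧ s.2.1 ∈ B ∧ s.2.2 = v ∧ Col I L s.1 s.2.1 v := by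
          intro s hs
          obtain ⟨p, hp, rfl⟩ := mem_image.mp hs
          obtain ⟨h1, h2⟩ := mem_filter.mp hp
          exact ⟨(mem_product.mp h1).1, (mem_product.mp h1).2, rfl, h2⟩
        have hGN : Disjoint G N := by
          rw [disjoint_left]
          intro s h1 h2
          exact hvF ((hNm s h2).2.2.1 ▸ (hG s h1).2)
        have hsym' : ∀ s ∈ G ∪ N, (s.2.1, s.1, s.2.2) ∈ G ∪ N := by
          intro s hs
          rcases mem_union.mp hs with h | h
          · exact mem_union_left _ (hsym s h)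
          · obtain ⟨h1, h2, h3, h4⟩ := hNm s h
            refine mem_union_right _ (mem_image.mpr ⟨(s.2.1, s.1), ?_, by simp [h3]⟩)
            exact mem_filter.mpr ⟨mem_product.mpr ⟨h2, h1⟩, h4.symm⟩
        have hd' : ∀ u ∈ A, dg A (G ∪ N) u ≤ D + k := by
          intro u hu
          have e : dg A (G ∪ N) u ≤ dg A G u + dg A N u := by
            unfold dg
            rw [filter_union]
            exact card_union_le _ _
          by_cases huB : u ∈ B
          · have h1 : dg A G u < D := (mem_filter.mp huB).2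
            have h2 : dg A N u ≤ k := by
              unfold dg
              rcases (N.filter fun s => s.1 = u ∧ s.2.1 ∈ A).eq_empty_or_nonempty with h | ⟨s0, hs0⟩
              · rw [h]; simp
              obtain ⟨hs0N, hs0u, -⟩ := mem_filter.mp hs0
              obtain ⟨-, c2, -, l0, hl0, i1, -, i3⟩ := (hNm s0 hs0N).2.2.2
              rw [hs0u] at c2 i1
              refine le_trans ?_ (hk l0 hl0)
              refine card_le_card_of_injOn (fun s => s.2.1) ?_ ?_
              · intro s hs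
                simp only [coe_filter, Set.mem_ofPred_eq] at hs ⊢
                obtain ⟨hsN, hsu, hsA⟩ := hs
                obtain ⟨-, -, -, l, hl, j1, j2, j3⟩ := (hNm s hsN).2.2.2
                rw [hsu] at j1
                rw [huniq u v l0 l c2 hl0 hl i1 i3 j1 j3]
                exact ⟨hA hsA, j2⟩
              · intro s hs s' hs' h
                simp only [coe_filter, Set.mem_ofPred_eq] at hs hs'
                refine Prod.ext (hs.2.1.trans hs'.2.1.symm) (Prod.ext h ?_)
                exact (hNm s hs.1).2.2.1.trans (hNm s' hs'.1).2.2.1.symm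
            omega
          · have h2 : dg A N u = 0 := by
              unfold dg
              rw [card_eq_zero, filter_eq_empty_iff]
              intro s hs h
              exact huB (h.1 ▸ (hNm s hs).1)
            have := hd u hu
            omega
        have heg : eg A (G ∪ N) = eg A G + N.card := by
          unfold eg
          rw [filter_union, card_union_of_disjoint (disjoint_filter_filter hGN)]
          congr 2
          exact filter_true_of_mem fun s hs => ⟨hBA (hNm s hs).1, hBA (hNm s hs).2.1⟩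
        have hrem := eg_remove A {v} (G ∪ N) (D + k)
          (fun u hu => hd' u (by rw [mem_singleton.mp hu]; exact hvA)) hsym'
        have hAc : (A \ {v}).card + 1 = A.card := by
          rw [card_sdiff_of_subset (singleton_subset_iff.mpr hvA), card_singleton]
          have := card_pos.mpr ⟨v, hvA⟩
          omega
        refine le_trans (card_le_card ?_) (ih (A \ {v}) (insert v F) (G ∪ N)
          (sdiff_subset.trans hA) hF' ?_ ?_ hsym' ?_ ?_ hFc)
        · intro S hS
          obtain ⟨hS, hvS⟩ := mem_filter.mp hS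
          simp only [fam, mem_filter] at hS ⊢
          refine ⟨hS.1, hS.2.1, insert_subset hvS hS.2.2.1, fun x hx => ?_⟩
          have := hS.2.2.2 hx
          simp only [mem_union, mem_sdiff, mem_singleton, mem_insert] at this ⊢
          tauto
        · rw [disjoint_left]
          intro x hx hx'
          simp only [mem_sdiff, mem_singleton, mem_insert] at hx hx'
          rcases hx' with h | h
          · exact hx.2 h
          · exact disjoint_left.mp hdisj hx.1 h
        · intro s hs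
          rcases mem_union.mp hs with h | h
          · exact ⟨(hG s h).1, mem_insert_of_mem (hG s h).2⟩
          · obtain ⟨-, -, h3, h4⟩ := hNm s h
            rw [h3]
            exact ⟨h4, mem_insert_self _ _⟩
        · intro u hu
          exact (dg_mono sdiff_subset _ _).trans (hd' u (sdiff_subset hu))
        · rw [← hAc] at hpot
          rw [card_singleton] at hrem
          have e1 : 3 * (D + k) * ((A \ {v}).card + 1)
            = 3 * (D + k) * (A \ {v}).card + 3 * (D + k) := by ring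
          have e2 : (j + 1) * D ^ 2 = j * D ^ 2 + D ^ 2 := by ring
          omega
      · -- many neighbours of v are removed
        have hdv : D ≤ dg A G v := by
          by_contra hc
          exact hvB (mem_filter.mpr ⟨hvA, not_le.mp hc⟩)
        set N : Finset α := (G.filter fun s => s.1 = v ∧ s.2.1 ∈ A).image fun s => s.2.1 with hN
        have hNc : N.card = dg A G v := by
          refine card_image_of_injOn ?_
          intro s hs s' hs' h
          simp only [coe_filter, Set.mem_ofPred_eq] at hs hs' h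
          refine Prod.ext (hs.2.1.trans hs'.2.1.symm) (Prod.ext h ?_)
          by_contra hne
          obtain ⟨⟨c1, c2, -, l, hl, i1, i2, i3⟩, f1⟩ := hG s hs.1
          obtain ⟨⟨-, c2', -, l', hl', i1', i2', i3'⟩, f2⟩ := hG s' hs'.1
          rw [hs.2.1] at c1 c2 i1
          rw [hs'.2.1] at c2' i1'
          rw [← h] at i2'
          have := huniq _ _ l l' c1 hl hl' i1 i2 i1' i2'
          subst this
          exact hS0i v hvS0 _ (hS0F f1) _ (hS0F f2) ⟨c2, c2', hne, l, hl, i1, i3, i3'⟩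
        have hNA : insert v N ⊆ A := by
          refine insert_subset hvA fun x hx => ?_
          obtain ⟨s, hs, rfl⟩ := mem_image.mp hx
          exact (mem_filter.mp hs).2.2
        have hrem := eg_remove A (insert v N) G (D + k) (fun u hu => hd u (hNA hu)) hsym
        have hAc : (A \ insert v N).card + (insert v N).card = A.card :=
          card_sdiff_add_card_eq_card hNA
        have hr : D ≤ (insert v N).card := by
          have := card_le_card (subset_insert v N)
          omega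
        refine le_trans (card_le_card ?_) (ih (A \ insert v N) (insert v F) G
          (sdiff_subset.trans hA) hF' ?_ ?_ hsym ?_ ?_ hFc)
        · intro S hS
          obtain ⟨hS, hvS⟩ := mem_filter.mp hS
          simp only [fam, mem_filter] at hS ⊢
          refine ⟨hS.1, hS.2.1, insert_subset hvS hS.2.2.1, fun x hx => ?_⟩
          have h1 := hS.2.2.2 hx
          have h2 : x ∉ N := by
            intro hxN
            obtain ⟨s, hs, rfl⟩ := mem_image.mp hxN
            obtain ⟨hsG, hsv, -⟩ := mem_filter.mp hs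
            exact hS.2.1 _ (hsv ▸ hvS) _ hx _ (hS.2.2.1 (hG s hsG).2) (hG s hsG).1
          simp only [mem_union, mem_sdiff, mem_insert] at h1 ⊢
          tauto
        · rw [disjoint_left]
          intro x hx hx'
          simp only [mem_sdiff, mem_insert] at hx hx'
          rcases hx' with h | h
          · exact hx.2 (Or.inl h)
          · exact disjoint_left.mp hdisj hx.1 h
        · intro s hs
          exact ⟨(hG s hs).1, mem_insert_of_mem (hG s hs).2⟩
        · intro u hu
          exact (dg_mono sdiff_subset _ _).trans (hd u (sdiff_subset hu))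
        · rw [← hAc] at hpot
          set r := (insert v N).card
          have e1 : 3 * (D + k) * ((A \ insert v N).card + r)
            = 3 * (D + k) * (A \ insert v N).card + 3 * (r * (D + k)) := by ring
          have e2 : (j + 1) * D ^ 2 = j * D ^ 2 + D ^ 2 := by ring
          have e3 : D ^ 2 ≤ r * (D + k) := by
            rw [pow_two]; exact Nat.mul_le_mul hr (by omega)
          omega
    have h1 := (card_le_card cover).trans (card_union_le _ _)
    have h2 : ((A \ Z).biUnion fun v => (fam I L V m A F).filter fun S => v ∈ S).card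
        ≤ V.card * ((V.card + 1) ^ j * M) := by
      refine card_biUnion_le.trans ((sum_le_sum hstep).trans ?_)
      rw [sum_const, smul_eq_mul]
      exact Nat.mul_le_mul_right _ (card_le_card (sdiff_subset.trans hA))
    have h3 : M ≤ (V.card + 1) ^ j * M := Nat.le_mul_of_pos_left _ (by positivity)
    have e : (V.card + 1) ^ (j + 1) * M
      = V.card * ((V.card + 1) ^ j * M) + (V.card + 1) ^ j * M := by ring
    omega

lemma round (V : Finset α)
    (huniq : ∀ x y l l', x ≠ y → l ∈ L → l' ∈ L → I x l → I y l → I x l' → I y l' → l = l')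
    {k W Λ μ D z t a a' m M : ℕ} (hk : ∀ l ∈ L, (V.filter fun x => I x l).card ≤ k)
    (hrich : ∀ x ∈ V, W ≤ (L.filter (I x)).card) (hΛ : L.card ≤ Λ) (hμ : 8 ≤ μ)
    (hz : Λ * μ ≤ z * W) (hD : 32 * D ^ 2 ≤ μ ^ 2 * W) (hD0 : 0 < D) (ha' : z + t ≤ a')
    (ht : 3 * (D + k) * a ≤ t * D ^ 2) (hM : Bd I L V m a' M) :
    Bd I L V m a ((V.card + 1) ^ t * M) := by
  intro C hC hCa
  refine round_aux V huniq hk hrich hΛ hμ hz hD hD0 ha' hM t C ∅ ∅ hC (empty_subset _)
    (disjoint_empty_right _) (by simp) (by simp) (by simp [dg]) ?_ (by simp)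
  have := Nat.mul_le_mul_left (3 * (D + k)) hCa
  omega

/-- Counting independent sets: points on at least `w^2/2` of at most `2 w^4 k` lines. -/
theorem count_indep (V : Finset α)
    (huniq : ∀ x y l l', x ≠ y → l ∈ L → l' ∈ L → I x l → I y l → I x l' → I y l' → l = l')
    {k w h m : ℕ} (hw : w = 2 * h) (hkw : k ≤ w) (hw0 : 12 ≤ w)
    (hk : ∀ l ∈ L, (V.filter fun x => I x l).card ≤ k)
    (hrich : ∀ x ∈ V, w * h ≤ (L.filter (I x)).card) (hΛ : L.card ≤ 2 * w ^ 4 * k) (j : ℕ) :
    Bd I L V m (128 * (w ^ 2 * k) * 2 ^ j)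
      ((V.card + 1) ^ (768 * w * k * j) * (128 * (w ^ 2 * k)).choose m) := by
  induction j with
  | zero =>
    intro C hC hCa
    simp only [pow_zero, mul_one, mul_zero, one_mul] at hCa ⊢
    refine le_trans (card_le_card (t := C.powersetCard m) fun S hS => ?_) ?_
    · simp only [fam, mem_filter, mem_powersetCard] at hS ⊢
      exact ⟨by simpa using hS.2.2.2, hS.1.2⟩
    · rw [card_powersetCard]
      exact Nat.choose_le_choose _ hCa
  | succ j ih =>
    have hp : 1 ≤ 2 ^ j := Nat.one_le_two_pow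
    have := round V huniq (k := k) (W := w * h) (Λ := 2 * w ^ 4 * k) (μ := 16 * 2 ^ j)
      (D := 2 * 2 ^ j * w) (z := 64 * (w ^ 2 * k) * 2 ^ j) (t := 768 * w * k)
      (a := 128 * (w ^ 2 * k) * 2 ^ (j + 1)) hk hrich hΛ (by omega)
      (by subst hw; apply le_of_eq; ring) (by subst hw; apply le_of_eq; ring)
      (by positivity) ?_ ?_ ih
    · convert this using 1
      ring
    · have h1 : 768 * w * k ≤ 64 * (w ^ 2 * k) := by
        calc 768 * w * k = 64 * (12 * (w * k)) := by ring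
          _ ≤ 64 * (w * (w * k)) := by gcongr
          _ = _ := by ring
      have h2 : 64 * (w ^ 2 * k) ≤ 64 * (w ^ 2 * k) * 2 ^ j := Nat.le_mul_of_pos_right _ hp
      have e : 128 * (w ^ 2 * k) * 2 ^ j
        = 64 * (w ^ 2 * k) * 2 ^ j + 64 * (w ^ 2 * k) * 2 ^ j := by ring
      omega
    · have h1 : k ≤ 2 * 2 ^ j * w := hkw.trans (Nat.le_mul_of_pos_left _ (by positivity))
      calc 3 * (2 * 2 ^ j * w + k) * (128 * (w ^ 2 * k) * 2 ^ (j + 1))
          ≤ 3 * (2 * 2 ^ j * w + 2 * 2 ^ j * w) * (128 * (w ^ 2 * k) * 2 ^ (j + 1)) := by gcongr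
        _ = _ := by ring

end

end Pool.Agent.Lib.MP_bfa5ed_co
end

-- part Pool.Agent.Lib.MP_bfa5ed_co.Count
section

open Finset

namespace Pool.Agent.Lib.MP_bfa5ed_co

lemma choose_ratio {n N : ℕ} (hN : 2 * N ≤ n) (i : ℕ) :
    ∀ j, j + i = N → n ^ i * n.choose j ≤ (2 * N) ^ i * n.choose N := by
  induction i with
  | zero => intro j hj; simp at hj; simp [hj]
  | succ i ih =>
    intro j hj
    have h1 := ih (j + 1) (by omega)
    have h2 : n.choose (j + 1) * (j + 1) = n.choose j * (n - j) := Nat.choose_succ_right_eq n j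
    have h3 : n * n.choose j ≤ 2 * N * n.choose (j + 1) := by
      calc n * n.choose j ≤ (2 * (n - j)) * n.choose j := Nat.mul_le_mul_right _ (by omega)
        _ = 2 * (n.choose (j + 1) * (j + 1)) := by rw [h2]; ring
        _ ≤ 2 * (n.choose (j + 1) * N) := by gcongr; omega
        _ = _ := by ring
    calc n ^ (i + 1) * n.choose j = n ^ i * (n * n.choose j) := by ring
      _ ≤ n ^ i * (2 * N * n.choose (j + 1)) := Nat.mul_le_mul_left _ h3
      _ = 2 * N * (n ^ i * n.choose (j + 1)) := by ring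
      _ ≤ 2 * N * ((2 * N) ^ i * n.choose N) := Nat.mul_le_mul_left _ h1
      _ = _ := by ring

lemma pow_le_three_pow_fact (m : ℕ) : m ^ m ≤ 3 ^ m * m.factorial := by
  have h := Real.pow_div_factorial_le_exp (m : ℝ) (Nat.cast_nonneg m) m
  have h2 : Real.exp m ≤ 3 ^ m := by
    rw [← mul_one (m : ℝ), Real.exp_nat_mul]
    exact pow_le_pow_left₀ (Real.exp_pos _).le (Real.exp_one_lt_d9.le.trans (by norm_num)) m
  rw [div_le_iff₀ (by positivity)] at h
  have : (m : ℝ) ^ m ≤ 3 ^ m * m.factorial :=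
    h.trans (mul_le_mul_of_nonneg_right h2 (by positivity))
  exact_mod_cast this

lemma choose_mul_pow_le (a m : ℕ) : a.choose m * m ^ m ≤ (3 * a) ^ m := by
  calc a.choose m * m ^ m ≤ a.choose m * (3 ^ m * m.factorial) :=
        Nat.mul_le_mul_left _ (pow_le_three_pow_fact m)
    _ = 3 ^ m * (m.factorial * a.choose m) := by ring
    _ = 3 ^ m * a.descFactorial m := by rw [Nat.descFactorial_eq_factorial_mul_choose]
    _ ≤ 3 ^ m * a ^ m := Nat.mul_le_mul_left _ (Nat.descFactorial_le_pow a m)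
    _ = _ := by rw [mul_pow]

section

open Classical

variable {α β : Type} {I : α → β → Prop} {L : Finset β}

theorem exists_good (V : Finset α)
    (huniq : ∀ x y l l', x ≠ y → l ∈ L → l' ∈ L → I x l → I y l → I x l' → I y l' → l = l')
    {k w h m N J : ℕ} (hw : w = 2 * h) (hkw : k ≤ w) (hw0 : 12 ≤ w)
    (hk : ∀ l ∈ L, (V.filter fun x => I x l).card ≤ k)
    (hdeg : ∀ x ∈ V, (L.filter (I x)).card = w ^ 2) (hΛ : L.card ≤ 2 * w ^ 4 * k)
    (hJ : V.card ≤ 128 * (w ^ 2 * k) * 2 ^ J) (hmN : m ≤ N) (hN : 2 * N ≤ V.card) (hV : 0 < V.card)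
    (hA : 2 * ((V.card + 1) ^ (768 * w * k * J) * (128 * (w ^ 2 * k)).choose m) * (2 * N) ^ m
      < V.card ^ m)
    (hB : 2 * (V.card * (w ^ 2 * k).choose (w * h) * V.card.choose m) * (2 * N) ^ (m + w * h)
      ≤ V.card ^ (m + w * h)) :
    ∃ P ⊆ V, P.card = N ∧ ∀ S ⊆ P, S.card = m →
      ¬ Indep I (L.filter fun l => ∀ y ∈ P \ S, ¬ I y l) S := by
  by_contra hcon
  push Not at hcon
  set n := V.card with hn
  set r := N - m with hr
  set τ := w * h with hτ
  set free : Finset α → Finset β := fun R => L.filter fun l => ∀ y ∈ R, ¬ I y l with hfree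
  set famR : Finset α → Finset (Finset α) := fun R => fam I (free R) (V \ R) m (V \ R) ∅ with hfamR
  set Imax := (n + 1) ^ (768 * w * k * J) * (128 * (w ^ 2 * k)).choose m with hImax
  have cover : V.powersetCard N ⊆
      (V.powersetCard r).biUnion fun R => (famR R).image fun S => R ∪ S := by
    intro P hP
    obtain ⟨hPV, hPc⟩ := mem_powersetCard.mp hP
    obtain ⟨S, hSP, hSc, hSi⟩ := hcon P hPV hPc
    refine mem_biUnion.mpr ⟨P \ S, mem_powersetCard.mpr ⟨sdiff_subset.trans hPV, ?_⟩,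
      mem_image.mpr ⟨S, ?_, sdiff_union_of_subset hSP⟩⟩
    · rw [card_sdiff_of_subset hSP, hPc, hSc]
    · have hsub : S ⊆ V \ (P \ S) := fun x hx =>
        mem_sdiff.mpr ⟨hPV (hSP hx), fun h => (mem_sdiff.mp h).2 hx⟩
      simp only [hfamR, fam, mem_filter, mem_powersetCard]
      exact ⟨⟨hsub, hSc⟩, hSi, empty_subset _, by simpa using hsub⟩
  set typ : Finset α → Prop := fun R => ∀ x ∈ V \ R, τ ≤ ((free R).filter (I x)).card with htyp
  have htypical : ∀ R, typ R → (famR R).card ≤ Imax := by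
    intro R hR
    have := count_indep (I := I) (L := free R) (V \ R)
      (fun x y l l' hxy hl hl' => huniq x y l l' hxy (mem_filter.mp hl).1 (mem_filter.mp hl').1)
      (m := m) hw hkw hw0
      (fun l hl => (card_le_card (filter_subset_filter _ sdiff_subset)).trans
        (hk l (mem_filter.mp hl).1)) hR ((card_le_card (filter_subset _ _)).trans hΛ) J
      (V \ R) subset_rfl ((card_le_card sdiff_subset).trans hJ)
    refine this.trans (Nat.mul_le_mul_right _ (Nat.pow_le_pow_left ?_ _))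
    exact Nat.add_le_add_right (card_le_card sdiff_subset) 1
  have hany : ∀ R, (famR R).card ≤ n.choose m := by
    intro R
    refine (card_le_card (filter_subset _ _)).trans ?_
    rw [card_powersetCard]
    exact Nat.choose_le_choose _ (card_le_card sdiff_subset)
  set U : α → Finset α := fun z => (L.filter (I z)).biUnion fun l => V.filter fun y => I y l
    with hU
  have hUc : ∀ z ∈ V, (U z).card ≤ w ^ 2 * k := by
    intro z hz
    refine card_biUnion_le.trans ?_
    rw [← hdeg z hz, ← smul_eq_mul, ← sum_const]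
    exact sum_le_sum fun l hl => hk l (mem_filter.mp hl).1
  have hatyp : ((V.powersetCard r).filter fun R => ¬ typ R) ⊆
      V.biUnion fun z => ((U z).powersetCard τ).biUnion fun T =>
        (V.powersetCard r).filter fun R => T ⊆ R := by
    intro R hR
    obtain ⟨hR1, hR2⟩ := mem_filter.mp hR
    simp only [htyp] at hR2
    push Not at hR2
    obtain ⟨z, hz, hlt⟩ := hR2
    obtain ⟨hzV, hzR⟩ := mem_sdiff.mp hz
    have hRV := (mem_powersetCard.mp hR1).1
    have hsplit : (L.filter (I z)) ⊆ (free R).filter (I z) ∪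
        (R ∩ U z).biUnion fun y => L.filter fun l => I z l ∧ I y l := by
      intro l hl
      obtain ⟨hlL, hzl⟩ := mem_filter.mp hl
      by_cases hf : ∀ y ∈ R, ¬ I y l
      · exact mem_union_left _ (mem_filter.mpr ⟨mem_filter.mpr ⟨hlL, hf⟩, hzl⟩)
      · push Not at hf
        obtain ⟨y, hy, hyl⟩ := hf
        refine mem_union_right _ (mem_biUnion.mpr ⟨y, mem_inter.mpr ⟨hy, ?_⟩,
          mem_filter.mpr ⟨hlL, hzl, hyl⟩⟩)
        exact mem_biUnion.mpr ⟨l, hl, mem_filter.mpr ⟨hRV hy, hyl⟩⟩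
    have hone : ∀ y ∈ R ∩ U z, (L.filter fun l => I z l ∧ I y l).card ≤ 1 := by
      intro y hy
      rw [card_le_one]
      intro l hl l' hl'
      obtain ⟨a1, a2, a3⟩ := mem_filter.mp hl
      obtain ⟨b1, b2, b3⟩ := mem_filter.mp hl'
      exact huniq z y l l' (fun e => hzR (e ▸ (mem_inter.mp hy).1)) a1 b1 a2 a3 b2 b3
    have h1 := (card_le_card hsplit).trans ((card_union_le _ _).trans
      (Nat.add_le_add_left (card_biUnion_le.trans (sum_le_sum hone)) _))
    rw [hdeg z hzV, sum_const, smul_eq_mul, mul_one] at h1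
    have h2 : w ^ 2 = 2 * τ := by rw [hτ, pow_two]; nth_rewrite 2 [hw]; ring
    obtain ⟨T, hT1, hT2⟩ := exists_subset_card_eq (s := R ∩ U z) (n := τ) (by omega)
    exact mem_biUnion.mpr ⟨z, hzV, mem_biUnion.mpr ⟨T, mem_powersetCard.mpr
      ⟨hT1.trans inter_subset_right, hT2⟩, mem_filter.mpr ⟨hR1, hT1.trans inter_subset_left⟩⟩⟩
  set c := if τ ≤ r then n.choose (r - τ) else 0 with hc
  have hT : ∀ T : Finset α, T.card = τ →
      ((V.powersetCard r).filter fun R => T ⊆ R).card ≤ c := by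
    intro T hTc
    simp only [hc]
    split_ifs with hle
    · rw [hn, ← card_powersetCard]
      refine card_le_card_of_injOn (fun R => R \ T) ?_ ?_
      · intro R hR
        simp only [coe_filter, mem_powersetCard, Set.mem_ofPred_eq] at hR
        simp only [mem_coe, mem_powersetCard]
        exact ⟨sdiff_subset.trans hR.1.1, by rw [card_sdiff_of_subset hR.2, hR.1.2, hTc]⟩
      · intro R hR R' hR' e
        simp only [coe_filter, Set.mem_ofPred_eq] at hR hR' e
        rw [← sdiff_union_of_subset hR.2, ← sdiff_union_of_subset hR'.2, e]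
    · rw [Nat.le_zero, card_eq_zero, filter_eq_empty_iff]
      intro R hR hTR
      have := card_le_card hTR
      rw [hTc, (mem_powersetCard.mp hR).2] at this
      exact hle this
  have hatc : ((V.powersetCard r).filter fun R => ¬ typ R).card
      ≤ n * ((w ^ 2 * k).choose τ * c) := by
    refine (card_le_card hatyp).trans (card_biUnion_le.trans ?_)
    rw [hn, ← smul_eq_mul, ← sum_const]
    refine sum_le_sum fun z hz => card_biUnion_le.trans ?_
    refine (sum_le_sum fun T hT' => hT T (mem_powersetCard.mp hT').2).trans ?_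
    rw [sum_const, smul_eq_mul, card_powersetCard]
    exact Nat.mul_le_mul_right _ (Nat.choose_le_choose _ (hUc z hz))
  have total : n.choose N ≤ n.choose r * Imax + n * ((w ^ 2 * k).choose τ * c) * n.choose m := by
    have h1 := (card_le_card cover).trans (card_biUnion_le.trans
      (sum_le_sum fun R _ => card_image_le))
    rw [card_powersetCard, ← sum_filter_add_sum_filter_not _ typ] at h1
    refine h1.trans (Nat.add_le_add ?_ ?_)
    · refine (sum_le_sum fun R hR => htypical R (mem_filter.mp hR).2).trans ?_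
      rw [sum_const, smul_eq_mul]
      refine Nat.mul_le_mul_right _ ((card_le_card (filter_subset _ _)).trans ?_)
      rw [card_powersetCard]
    · refine (sum_le_sum fun R _ => hany R).trans ?_
      rw [sum_const, smul_eq_mul]
      exact Nat.mul_le_mul_right _ hatc
  have hpos : 0 < n.choose N := Nat.choose_pos (by omega)
  have b1 : 2 * (n.choose r * Imax) < n.choose N := by
    have h1 := choose_ratio hN m r (by omega)
    have h2 : n ^ m * (2 * (n.choose r * Imax)) < n ^ m * n.choose N := by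
      calc n ^ m * (2 * (n.choose r * Imax)) = 2 * Imax * (n ^ m * n.choose r) := by ring
        _ ≤ 2 * Imax * ((2 * N) ^ m * n.choose N) := Nat.mul_le_mul_left _ h1
        _ = 2 * Imax * (2 * N) ^ m * n.choose N := by ring
        _ < n ^ m * n.choose N := Nat.mul_lt_mul_of_pos_right hA hpos
    exact Nat.lt_of_mul_lt_mul_left h2
  have b2 : 2 * (n * ((w ^ 2 * k).choose τ * c) * n.choose m) ≤ n.choose N := by
    simp only [hc]
    split_ifs with hle
    · have h1 := choose_ratio hN (m + τ) (r - τ) (by omega)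
      have h2 : n ^ (m + τ) * (2 * (n * ((w ^ 2 * k).choose τ * n.choose (r - τ)) * n.choose m))
          ≤ n ^ (m + τ) * n.choose N := by
        calc _ = 2 * (n * (w ^ 2 * k).choose τ * n.choose m) * (n ^ (m + τ) * n.choose (r - τ)) := by
              ring
          _ ≤ 2 * (n * (w ^ 2 * k).choose τ * n.choose m) * ((2 * N) ^ (m + τ) * n.choose N) :=
              Nat.mul_le_mul_left _ h1
          _ = 2 * (n * (w ^ 2 * k).choose τ * n.choose m) * (2 * N) ^ (m + τ) * n.choose N := by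
              ring
          _ ≤ _ := Nat.mul_le_mul_right _ hB
      exact Nat.le_of_mul_le_mul_left h2 (by positivity)
    · simp
  omega

lemma unpack_good {P : Finset α} {m : ℕ} (h : ∀ S ⊆ P, S.card = m →
      ¬ Indep I (L.filter fun l => ∀ y ∈ P \ S, ¬ I y l) S) :
    ∀ S ⊆ P, S.card = m → ∃ u ∈ S, ∃ w ∈ S, ∃ v ∈ S, u ≠ w ∧ u ≠ v ∧ w ≠ v ∧
      ∃ l, I u l ∧ I w l ∧ I v l ∧ ∀ y ∈ P, y ∉ S → ¬ I y l := by
  intro S hS hc
  have hbad := h S hS hc
  unfold Indep at hbad
  push Not at hbad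
  obtain ⟨u, hu, w, hw, v, hv, n1, n2, n3, l, hl, i1, i2, i3⟩ := hbad
  exact ⟨u, hu, w, hw, v, hv, n1, n2, n3, l, i1, i2, i3,
    fun y h1 h2 => (mem_filter.mp hl).2 y (mem_sdiff.mpr ⟨h1, h2⟩)⟩

end

lemma condA {n x a m N l : ℕ} (hn : n + 1 ≤ 2 ^ l) (hn0 : 0 < n) (hm : l * x + 1 < m)
    (ha : 12 * N * a ≤ m * n) : 2 * ((n + 1) ^ x * a.choose m) * (2 * N) ^ m < n ^ m := by
  have hm0 : 0 < m := by omega
  have h1 : m ^ m * (2 ^ m * (a.choose m * (2 * N) ^ m)) ≤ m ^ m * n ^ m := by
    calc m ^ m * (2 ^ m * (a.choose m * (2 * N) ^ m))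
        = (a.choose m * m ^ m) * (2 ^ m * (2 * N) ^ m) := by ring
      _ ≤ (3 * a) ^ m * (2 ^ m * (2 * N) ^ m) := Nat.mul_le_mul_right _ (choose_mul_pow_le a m)
      _ = (12 * N * a) ^ m := by rw [← mul_pow, ← mul_pow]; congr 1; ring
      _ ≤ (m * n) ^ m := Nat.pow_le_pow_left ha m
      _ = _ := mul_pow _ _ _
  have h2 := Nat.le_of_mul_le_mul_left h1 (by positivity)
  have h3 : 2 * (n + 1) ^ x < 2 ^ m := by
    calc 2 * (n + 1) ^ x ≤ 2 * (2 ^ l) ^ x := by gcongr
      _ = 2 ^ (l * x + 1) := by rw [← pow_mul, pow_succ]; ring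
      _ < 2 ^ m := Nat.pow_lt_pow_right (by norm_num) hm
  rcases Nat.eq_zero_or_pos (a.choose m * (2 * N) ^ m) with h0 | h0
  · have : 2 * ((n + 1) ^ x * a.choose m) * (2 * N) ^ m
        = 2 * (n + 1) ^ x * (a.choose m * (2 * N) ^ m) := by ring
    rw [this, h0, mul_zero]; positivity
  · calc 2 * ((n + 1) ^ x * a.choose m) * (2 * N) ^ m
        = 2 * (n + 1) ^ x * (a.choose m * (2 * N) ^ m) := by ring
      _ < 2 ^ m * (a.choose m * (2 * N) ^ m) := Nat.mul_lt_mul_of_pos_right h3 h0
      _ ≤ _ := h2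

lemma condB {n k τ m N l : ℕ} (hn : n ≤ 2 ^ l) (hN : 2 * N ≤ n) (hτ : 1 + l + l * m ≤ τ)
    (hk : 24 * k * N ≤ n) :
    2 * (n * (2 * τ * k).choose τ * n.choose m) * (2 * N) ^ (m + τ) ≤ n ^ (m + τ) := by
  have hτ0 : 0 < τ := by omega
  have h1 : τ ^ τ * (2 * τ * k).choose τ ≤ τ ^ τ * (6 * k) ^ τ := by
    calc τ ^ τ * (2 * τ * k).choose τ = (2 * τ * k).choose τ * τ ^ τ := by ring
      _ ≤ (3 * (2 * τ * k)) ^ τ := choose_mul_pow_le _ _
      _ = _ := by rw [← mul_pow]; congr 1; ring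
  have h2 := Nat.le_of_mul_le_mul_left h1 (by positivity)
  have h3 : 2 * n * (2 * N) ^ m ≤ 2 ^ τ := by
    calc 2 * n * (2 * N) ^ m ≤ 2 * 2 ^ l * (2 ^ l) ^ m := by gcongr; omega
      _ = 2 ^ (1 + l + l * m) := by rw [← pow_mul, pow_add, pow_add]; ring
      _ ≤ 2 ^ τ := Nat.pow_le_pow_right (by norm_num) hτ
  have h4 : n.choose m ≤ n ^ m := Nat.choose_le_pow n m
  calc 2 * (n * (2 * τ * k).choose τ * n.choose m) * (2 * N) ^ (m + τ)
      = (2 * n * (2 * N) ^ m) * ((2 * τ * k).choose τ * (2 * N) ^ τ) * n.choose m := by ring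
    _ ≤ 2 ^ τ * ((6 * k) ^ τ * (2 * N) ^ τ) * n ^ m := by gcongr
    _ = (24 * k * N) ^ τ * n ^ m := by rw [← mul_pow, ← mul_pow]; congr 2; ring
    _ ≤ n ^ τ * n ^ m := by gcongr
    _ = _ := by ring

end Pool.Agent.Lib.MP_bfa5ed_co
end

-- part Pool.Agent.Lib.MP_bfa5ed_co.Geom
section

open Topology Filter

namespace Pool.Agent.Lib.MP_bfa5ed_co

abbrev Pl := EuclideanSpace ℝ (Fin 2)

noncomputable def ln (a b : ℝ) : AffineSubspace ℝ Pl :=
  AffineSubspace.mk' (!₂[0, b] : Pl) (ℝ ∙ (!₂[1, a] : Pl))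

lemma mem_ln {a b : ℝ} {p : Pl} : p ∈ ln a b ↔ a * p 0 + b - p 1 = 0 := by
  unfold ln
  rw [AffineSubspace.mem_mk', Submodule.mem_span_singleton]
  constructor
  · rintro ⟨t, ht⟩
    have h0 := congrArg (fun v : Pl => v 0) ht
    have h1 := congrArg (fun v : Pl => v 1) ht
    simp at h0 h1
    rw [← h0]; linarith
  · intro h
    refine ⟨p 0, ?_⟩
    ext i
    fin_cases i
    · simp
    · simp; linarith

lemma vec_ne (a : ℝ) : (!₂[1, a] : Pl) ≠ 0 := by
  intro h
  have h0 := congrArg (fun v : Pl => v 0) h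
  simp at h0

lemma ln_rank (a b : ℝ) : Module.finrank ℝ (ln a b).direction = 1 := by
  unfold ln
  rw [AffineSubspace.direction_mk']
  exact finrank_span_singleton (vec_ne a)

lemma slope_of_dir {a b a' b' : ℝ} (h : (ln a b).direction = (ln a' b').direction) : a = a' := by
  unfold ln at h
  rw [AffineSubspace.direction_mk', AffineSubspace.direction_mk'] at h
  have : (!₂[1, a] : Pl) ∈ (ℝ ∙ (!₂[1, a'] : Pl)) := h ▸ Submodule.mem_span_singleton_self _
  obtain ⟨t, ht⟩ := Submodule.mem_span_singleton.mp this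
  have h0 := congrArg (fun v : Pl => v 0) ht
  have h1 := congrArg (fun v : Pl => v 1) ht
  simp at h0 h1
  rw [h0] at h1
  linarith

def det3 {ι : Type} (a b : ι → ℝ) (i j m : ι) : ℝ :=
  (a j - a i) * (b m - b i) - (a m - a i) * (b j - b i)

lemma sign_const {U : Set Pl} {p : Pl} {f : Pl → ℝ} (hf : Continuous f)
    (hU : ∀ q ∈ U, f q ≠ 0) (hp : p ∈ U) (h : 0 < f p) :
    ∀ q ∈ connectedComponentIn U p, 0 < f q := by
  intro q hq
  by_contra hc
  push Not at hc
  have := (isPreconnected_connectedComponentIn (x := p) (F := U)).intermediate_value hq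
    (mem_connectedComponentIn hp) hf.continuousOn (show (0 : ℝ) ∈ Set.Icc (f q) (f p) from ⟨hc, h.le⟩)
  obtain ⟨r, hr, h0⟩ := this
  exact hU r (connectedComponentIn_subset _ _ hr) h0

/-- A triangular cell. -/
lemma tri_cell {ι : Type} [Fintype ι] [DecidableEq (AffineSubspace ℝ Pl)] (a b : ι → ℝ)
    {i j k : ι} (hij : a i < a j) (hjk : a j < a k) (hD : 0 < det3 a b i j k)
    (hm : ∀ m, m ≠ i → m ≠ j → m ≠ k →
      (0 < det3 a b j k m ∧ 0 < det3 a b i k m ∧ 0 < det3 a b i j m) ∨
      (det3 a b j k m < 0 ∧ det3 a b i k m < 0 ∧ det3 a b i j m < 0)) :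
    ∃ C, IsCell (Finset.univ.image fun m => ln (a m) (b m)) C ∧
      ∀ m, Bounds (ln (a m) (b m)) C → m = i ∨ m = j ∨ m = k := by
  set f : ι → Pl → ℝ := fun m p => a m * p 0 + b m - p 1 with hf
  have hfc : ∀ m, Continuous (f m) := fun m => by simp only [hf]; fun_prop
  set D := det3 a b i j k with hDdef
  have rel : ∀ p, (a k - a j) * f i p + (a k - a i) * (-f j p) + (a j - a i) * f k p = D := by
    intro p; simp only [hf, hDdef, det3]; ring
  have cram : ∀ m p, D * f m p = det3 a b j k m * f i p + det3 a b i k m * (-f j p)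
      + det3 a b i j m * f k p := by
    intro m p; simp only [hf, hDdef, det3]; ring
  have miss : ∀ m, m ≠ i → m ≠ j → m ≠ k → ∀ p, 0 ≤ f i p → 0 ≤ -f j p → 0 ≤ f k p →
      f m p ≠ 0 := by
    intro m h1 h2 h3 p p1 p2 p3 h0
    have c := cram m p
    have r := rel p
    rw [h0, mul_zero] at c
    have z : f i p = 0 ∧ -f j p = 0 ∧ f k p = 0 := by
      rcases hm m h1 h2 h3 with ⟨d1, d2, d3⟩ | ⟨d1, d2, d3⟩
      · have e1 := mul_nonneg d1.le p1
        have e2 := mul_nonneg d2.le p2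
        have e3 := mul_nonneg d3.le p3
        refine ⟨?_, ?_, ?_⟩
        · exact (mul_eq_zero.mp (by linarith : det3 a b j k m * f i p = 0)).resolve_left d1.ne'
        · exact (mul_eq_zero.mp (by linarith : det3 a b i k m * -f j p = 0)).resolve_left d2.ne'
        · exact (mul_eq_zero.mp (by linarith : det3 a b i j m * f k p = 0)).resolve_left d3.ne'
      · have e1 := mul_nonpos_of_nonpos_of_nonneg d1.le p1
        have e2 := mul_nonpos_of_nonpos_of_nonneg d2.le p2
        have e3 := mul_nonpos_of_nonpos_of_nonneg d3.le p3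
        refine ⟨?_, ?_, ?_⟩
        · exact (mul_eq_zero.mp (by linarith : det3 a b j k m * f i p = 0)).resolve_left d1.ne
        · exact (mul_eq_zero.mp (by linarith : det3 a b i k m * -f j p = 0)).resolve_left d2.ne
        · exact (mul_eq_zero.mp (by linarith : det3 a b i j m * f k p = 0)).resolve_left d3.ne
    rw [z.1, z.2.1, z.2.2] at r
    linarith
  have h1 : 0 < a j - a i := by linarith
  have h2 : 0 < a k - a j := by linarith
  have h3 : 0 < a k - a i := by linarith
  set ci := D / (3 * (a k - a j)) with hci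
  set ck := D / (3 * (a j - a i)) with hck
  set X := (ck - ci - b k + b i) / (a k - a i) with hX
  set p : Pl := !₂[X, a i * X + b i - ci] with hp
  have pi : f i p = ci := by simp [hf, hp]
  have pk : f k p = ck := by
    simp only [hf, hp]
    simp
    have : (a k - a i) * X = ck - ci - b k + b i := by rw [hX]; field_simp
    linarith
  have ci0 : 0 < ci := by positivity
  have ck0 : 0 < ck := by positivity
  have pj : 0 < -f j p := by
    have r := rel p
    rw [pi, pk] at r
    have e1 : (a k - a j) * ci = D / 3 := by rw [hci]; field_simp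
    have e2 : (a j - a i) * ck = D / 3 := by rw [hck]; field_simp
    have : 0 < (a k - a i) * -f j p := by linarith
    exact (mul_pos_iff_of_pos_left h3).mp this
  set U : Set Pl := {q | ∀ l ∈ (Finset.univ.image fun m => ln (a m) (b m)), q ∉ l} with hU
  have hUf : ∀ m, ∀ q ∈ U, f m q ≠ 0 := fun m q hq h0 =>
    hq _ (Finset.mem_image_of_mem _ (Finset.mem_univ m)) (mem_ln.mpr h0)
  have hpU : p ∈ U := by
    intro l hl
    obtain ⟨m, -, rfl⟩ := Finset.mem_image.mp hl
    rw [mem_ln]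
    change f m p ≠ 0
    by_cases e1 : m = i
    · rw [e1, pi]; exact ci0.ne'
    by_cases e2 : m = j
    · rw [e2]; intro h; rw [h] at pj; simp at pj
    by_cases e3 : m = k
    · rw [e3, pk]; exact ck0.ne'
    exact miss m e1 e2 e3 p (pi ▸ ci0.le) pj.le (pk ▸ ck0.le)
  refine ⟨connectedComponentIn U p, ⟨p, hpU, rfl⟩, ?_⟩
  rintro m ⟨q, q', -, hs⟩
  by_contra hc
  push Not at hc
  obtain ⟨hq1, hq2⟩ := hs (left_mem_segment ℝ q q')
  have hcl : closure (connectedComponentIn U p) ⊆ {r | 0 ≤ f i r ∧ 0 ≤ -f j r ∧ 0 ≤ f k r} := by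
    refine closure_minimal (fun r hr => ⟨?_, ?_, ?_⟩) ?_
    · exact (sign_const (hfc i) (hUf i) hpU (pi ▸ ci0) r hr).le
    · exact (sign_const (hfc j).neg (fun q hq => neg_ne_zero.mpr (hUf j q hq)) hpU pj r hr).le
    · exact (sign_const (hfc k) (hUf k) hpU (pk ▸ ck0) r hr).le
    · exact (isClosed_le continuous_const (hfc i)).inter
        ((isClosed_le continuous_const (hfc j).neg).inter (isClosed_le continuous_const (hfc k)))
  obtain ⟨r1, r2, r3⟩ := hcl (frontier_subset_closure hq2)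
  exact miss m hc.1 hc.2.1 hc.2.2 q r1 r2 r3 (mem_ln.mp hq1)

lemma det3_pert {ι : Type} (a b : ι → ℝ) (ε : ℝ) (i j m : ι) :
    det3 a (fun x => b x + ε * a x ^ 2) i j m
      = det3 a b i j m + ε * ((a j - a i) * (a m - a i) * (a m - a j)) := by
  simp only [det3]; ring

lemma exists_eps {ι : Type} [Fintype ι] (a b : ι → ℝ) :
    ∃ ε : ℝ, 0 < ε ∧ ∀ i j m,
      (0 < det3 a b i j m → 0 < det3 a (fun x => b x + ε * a x ^ 2) i j m) ∧
      (det3 a b i j m < 0 → det3 a (fun x => b x + ε * a x ^ 2) i j m < 0) := by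
  have h : ∀ᶠ ε in 𝓝[>] (0 : ℝ), ∀ i j m,
      (0 < det3 a b i j m → 0 < det3 a (fun x => b x + ε * a x ^ 2) i j m) ∧
      (det3 a b i j m < 0 → det3 a (fun x => b x + ε * a x ^ 2) i j m < 0) := by
    simp only [eventually_all]
    intro i j m
    have ht : Tendsto (fun ε : ℝ => det3 a (fun x => b x + ε * a x ^ 2) i j m) (𝓝[>] 0)
        (𝓝 (det3 a b i j m)) := by
      simp only [det3_pert]
      have : Continuous fun ε : ℝ =>
          det3 a b i j m + ε * ((a j - a i) * (a m - a i) * (a m - a j)) := by fun_prop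
      have h2 := this.tendsto 0
      simp only [zero_mul, add_zero] at h2
      exact h2.mono_left nhdsWithin_le_nhds
    refine Eventually.and ?_ ?_
    · by_cases h : 0 < det3 a b i j m
      · exact (ht.eventually (lt_mem_nhds h)).mono fun ε hε _ => hε
      · exact Eventually.of_forall fun ε h' => absurd h' h
    · by_cases h : det3 a b i j m < 0
      · exact (ht.eventually (gt_mem_nhds h)).mono fun ε hε _ => hε
      · exact Eventually.of_forall fun ε h' => absurd h' h
  obtain ⟨ε, h1, h2⟩ := (h.and self_mem_nhdsWithin).exists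
  exact ⟨ε, h2, h1⟩

/-- From a point configuration to a line arrangement. -/
theorem colouring_of_colourable {ι : Type} [Fintype ι] (a b : ι → ℝ) (ha : Function.Injective a)
    {q : ℕ} (hc : Colourable Pl (Fintype.card ι) q) :
    ∃ χ : ι → Fin q, ∀ (i j k : ι) (α β : ℝ), a i < a j → a j < a k → b i = α * a i + β →
      b j = α * a j + β → b k = α * a k + β →
      (∀ m, m ≠ i → m ≠ j → m ≠ k → b m = α * a m + β → a m < a i ∨ a k < a m) →
      ¬ (χ i = χ j ∧ χ j = χ k) := by
  classical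
  obtain ⟨ε, hε, hs⟩ := exists_eps a b
  set b' : ι → ℝ := fun x => b x + ε * a x ^ 2 with hb'
  have hinj : Function.Injective fun m => ln (a m) (b' m) := fun m m' h =>
    ha (slope_of_dir (congrArg AffineSubspace.direction h))
  have hne : ∀ i j m, i ≠ j → i ≠ m → j ≠ m → det3 a b' i j m ≠ 0 := by
    intro i j m h1 h2 h3
    rcases lt_trichotomy (det3 a b i j m) 0 with h | h | h
    · exact ((hs i j m).2 h).ne
    · rw [hb', det3_pert, h, zero_add]
      refine mul_ne_zero hε.ne' (mul_ne_zero (mul_ne_zero ?_ ?_) ?_) <;>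
        rw [sub_ne_zero] <;> intro e
      · exact h1 (ha e).symm
      · exact h2 (ha e).symm
      · exact h3 (ha e).symm
    · exact ((hs i j m).1 h).ne'
  set L := Finset.univ.image fun m => ln (a m) (b' m) with hL
  have hcard : L.card = Fintype.card ι := by
    rw [hL, Finset.card_image_of_injective _ hinj, Finset.card_univ]
  have hgp : GeneralPosition L := by
    refine ⟨?_, ?_, ?_⟩
    · intro l hl
      obtain ⟨m, -, rfl⟩ := Finset.mem_image.mp hl
      exact ln_rank _ _
    · intro l hl l' hl' hll hpar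
      obtain ⟨m, -, rfl⟩ := Finset.mem_image.mp hl
      obtain ⟨m', -, rfl⟩ := Finset.mem_image.mp hl'
      exact hll (by rw [ha (slope_of_dir hpar.direction_eq)])
    · intro l1 h1 l2 h2 l3 h3 n1 n2 n3 p ⟨p1, p2, p3⟩
      obtain ⟨i, -, rfl⟩ := Finset.mem_image.mp h1
      obtain ⟨j, -, rfl⟩ := Finset.mem_image.mp h2
      obtain ⟨m, -, rfl⟩ := Finset.mem_image.mp h3
      rw [mem_ln] at p1 p2 p3
      refine hne i j m (fun e => n1 (by rw [e])) (fun e => n2 (by rw [e]))
        (fun e => n3 (by rw [e])) ?_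
      simp only [det3]
      linear_combination (a j - a i) * (p3 - p1) - (a m - a i) * (p2 - p1)
  obtain ⟨χ, hχ⟩ := hc L hcard hgp
  refine ⟨fun m => χ ⟨ln (a m) (b' m), Finset.mem_image_of_mem _ (Finset.mem_univ m)⟩, ?_⟩
  intro i j k α β hij hjk bi bj bk hm ⟨c1, c2⟩
  have d0 : ∀ x y m, b x = α * a x + β → b y = α * a y + β →
      det3 a b x y m = (a y - a x) * (b m - (α * a m + β)) := by
    intro x y m hx hy
    simp only [det3]; rw [hx, hy]; ring
  have h1 : 0 < a j - a i := by linarith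
  have h2 : 0 < a k - a j := by linarith
  have h3 : 0 < a k - a i := by linarith
  obtain ⟨C, hC, hB⟩ := tri_cell a b' hij hjk (by
      rw [hb', det3_pert, d0 i j k bi bj, bk, sub_self, mul_zero, zero_add]
      positivity) (by
      intro m m1 m2 m3
      rcases lt_trichotomy (b m) (α * a m + β) with h | h | h
      · right
        have : b m - (α * a m + β) < 0 := by linarith
        exact ⟨(hs _ _ _).2 (by rw [d0 _ _ _ bj bk]; exact mul_neg_of_pos_of_neg h2 this),
          (hs _ _ _).2 (by rw [d0 _ _ _ bi bk]; exact mul_neg_of_pos_of_neg h3 this),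
          (hs _ _ _).2 (by rw [d0 _ _ _ bi bj]; exact mul_neg_of_pos_of_neg h1 this)⟩
      · left
        have key : ∀ x y, b x = α * a x + β → b y = α * a y + β → a x < a y →
            (a m < a x ∨ a y < a m) → 0 < det3 a b' x y m := by
          intro x y hx hy hxy hmm
          rw [hb', det3_pert, d0 x y m hx hy, h, sub_self, mul_zero, zero_add]
          refine mul_pos hε ?_
          rw [mul_assoc]
          refine mul_pos (by linarith) ?_
          rcases hmm with e | e
          · exact mul_pos_of_neg_of_neg (by linarith) (by linarith)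
          · exact mul_pos (by linarith) (by linarith)
        have hmm := hm m m1 m2 m3 h
        refine ⟨key j k bj bk hjk ?_, key i k bi bk (by linarith) hmm, key i j bi bj hij ?_⟩
        · rcases hmm with e | e
          · left; linarith
          · right; exact e
        · rcases hmm with e | e
          · left; exact e
          · right; linarith
      · left
        have : 0 < b m - (α * a m + β) := by linarith
        exact ⟨(hs _ _ _).1 (by rw [d0 _ _ _ bj bk]; positivity),
          (hs _ _ _).1 (by rw [d0 _ _ _ bi bk]; positivity),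
          (hs _ _ _).1 (by rw [d0 _ _ _ bi bj]; positivity)⟩)
  refine hχ C hC ⟨χ ⟨ln (a j) (b' j), Finset.mem_image_of_mem _ (Finset.mem_univ j)⟩, ?_⟩
  rintro ⟨l, hl⟩ hb
  obtain ⟨m, -, rfl⟩ := Finset.mem_image.mp hl
  rcases hB m hb with rfl | rfl | rfl
  · exact c1
  · rfl
  · exact c2.symm

end Pool.Agent.Lib.MP_bfa5ed_co
end

-- part Pool.Agent.Lib.MP_bfa5ed_co.Grid
section

open Finset

namespace Pool.Agent.Lib.MP_bfa5ed_co

def Inc (k : ℕ) (p : ℕ × ℕ) (l : ℕ × ℕ) : Prop := p.2 + l.1 * k = l.2 + l.1 * p.1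

lemma inc_uniq (k : ℕ) (x y l l' : ℕ × ℕ) (hxy : x ≠ y) (h1 : Inc k x l) (h2 : Inc k y l)
    (h3 : Inc k x l') (h4 : Inc k y l') : l = l' := by
  unfold Inc at h1 h2 h3 h4
  zify at h1 h2 h3 h4
  have hx : (x.1 : ℤ) - y.1 ≠ 0 := by
    intro h
    apply hxy
    have e1 : (x.1 : ℤ) = y.1 := by linarith
    have e2 : (x.2 : ℤ) = y.2 := by rw [e1] at h1; linarith
    exact Prod.ext (by exact_mod_cast e1) (by exact_mod_cast e2)
  have hs : ((l.1 : ℤ) - l'.1) * (x.1 - y.1) = 0 := by linarith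
  have e1 : (l.1 : ℤ) = l'.1 := by
    have := (mul_eq_zero.mp hs).resolve_right hx
    linarith
  have e2 : (l.2 : ℤ) = l'.2 := by rw [e1] at h1; linarith
  exact Prod.ext (by exact_mod_cast e1) (by exact_mod_cast e2)

open Classical in
lemma inc_size (k H : ℕ) (l : ℕ × ℕ) :
    ((range k ×ˢ range H).filter fun x => Inc k x l).card ≤ k := by
  refine le_trans ?_ (card_range k).le
  refine card_le_card_of_injOn (fun p => p.1) ?_ ?_
  · intro p hp
    simp only [coe_filter, mem_product, Set.mem_ofPred_eq] at hp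
    exact mem_coe.mpr hp.1.1
  · intro p hp q hq e
    simp only [coe_filter, Set.mem_ofPred_eq, Inc] at hp hq e
    refine Prod.ext e ?_
    have h1 := hp.2
    have h2 := hq.2
    rw [e] at h1
    omega

open Classical in
lemma inc_deg (k W : ℕ) (x : ℕ × ℕ) (hx : x ∈ range k ×ˢ range (W * k)) :
    ((range W ×ˢ range (2 * (W * k))).filter (Inc k x)).card = W := by
  obtain ⟨h1, h2⟩ := mem_product.mp hx
  rw [mem_range] at h1 h2
  obtain ⟨d, hd⟩ : ∃ d, k = x.1 + d := ⟨k - x.1, by omega⟩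
  have : (range W ×ˢ range (2 * (W * k))).filter (Inc k x)
      = (range W).image fun s => (s, x.2 + s * d) := by
    ext l
    simp only [mem_filter, mem_product, mem_range, mem_image, Inc]
    constructor
    · rintro ⟨⟨a1, -⟩, a3⟩
      refine ⟨l.1, a1, Prod.ext rfl ?_⟩
      have : l.1 * k = l.1 * x.1 + l.1 * d := by rw [hd]; ring
      simp only
      omega
    · rintro ⟨s, hs, rfl⟩
      have e1 : s * k = s * x.1 + s * d := by rw [hd]; ring
      have e2 : s * d ≤ W * k := Nat.mul_le_mul hs.le (by omega)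
      simp only
      omega
  rw [this, card_image_of_injective _ (fun s s' h => (Prod.ext_iff.mp h).1), card_range]

lemma colouring_finset {κ : Type} (P : Finset κ) (a b : κ → ℝ) (ha : Set.InjOn a P)
    (hP : P.Nonempty) {q : ℕ} (hc : Colourable Pl P.card q) :
    ∃ χ : κ → Fin q, ∀ i ∈ P, ∀ j ∈ P, ∀ k ∈ P, ∀ α β : ℝ, a i < a j → a j < a k →
      b i = α * a i + β → b j = α * a j + β → b k = α * a k + β →
      (∀ m ∈ P, m ≠ i → m ≠ j → m ≠ k → b m = α * a m + β → a m < a i ∨ a k < a m) →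
      ¬ (χ i = χ j ∧ χ j = χ k) := by
  classical
  rw [← Fintype.card_coe] at hc
  obtain ⟨χ, hχ⟩ := colouring_of_colourable (ι := P) (fun x => a x) (fun x => b x)
    (fun x y h => Subtype.ext (ha x.2 y.2 h)) hc
  obtain ⟨p0, hp0⟩ := hP
  refine ⟨fun x => if h : x ∈ P then χ ⟨x, h⟩ else χ ⟨p0, hp0⟩, ?_⟩
  intro i hi j hj k hk α β h1 h2 h3 h4 h5 h6
  simp only [hi, hj, hk, dif_pos]
  refine hχ ⟨i, hi⟩ ⟨j, hj⟩ ⟨k, hk⟩ α β h1 h2 h3 h4 h5 ?_
  intro m m1 m2 m3 hm
  exact h6 m m.2 (fun e => m1 (Subtype.ext e)) (fun e => m2 (Subtype.ext e))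
    (fun e => m3 (Subtype.ext e)) hm

open Classical in
lemma grid_bound {k H m q0 n q : ℕ} (P : Finset (ℕ × ℕ))
    (hPV : P ⊆ range k ×ˢ range H) (hPc : P.card = q0 * m) (hm : 0 < m) (hq0 : 0 < q0)
    (hgood : ∀ S ⊆ P, S.card = m → ∃ u ∈ S, ∃ w ∈ S, ∃ v ∈ S, u ≠ w ∧ u ≠ v ∧ w ≠ v ∧
      ∃ l, Inc k u l ∧ Inc k w l ∧ Inc k v l ∧ ∀ y ∈ P, y ∉ S → ¬ Inc k y l)
    (hn : q0 * m ≤ n) (hc : Colourable Pl n q) : q0 < q := by
  by_contra hq
  push Not at hq
  have hPne : P.Nonempty := card_pos.mp (by rw [hPc]; positivity)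
  have hH : 0 < H := by
    obtain ⟨p, hp⟩ := hPne
    have := mem_range.mp (mem_product.mp (hPV hp)).2
    omega
  set E : Finset (ℕ × ℕ) := (range (n - q0 * m)).image fun i => (k + i, 0) with hE
  have hEm : ∀ p ∈ E, k ≤ p.1 ∧ p.2 = 0 := by
    intro p hp
    obtain ⟨i, -, rfl⟩ := mem_image.mp hp
    simp
  have hPm : ∀ p ∈ P, p.1 < k ∧ p.2 < H := fun p hp =>
    ⟨mem_range.mp (mem_product.mp (hPV hp)).1, mem_range.mp (mem_product.mp (hPV hp)).2⟩
  have hdisj : Disjoint P E := by
    rw [disjoint_left]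
    intro p h1 h2
    have := (hPm p h1).1
    have := (hEm p h2).1
    omega
  have hcard : (P ∪ E).card = n := by
    rw [card_union_of_disjoint hdisj, hE, card_image_of_injective _
      (fun i j h => by simpa using h), card_range, hPc]
    omega
  set a : ℕ × ℕ → ℝ := fun p => ((H * p.1 + p.2 : ℕ) : ℝ) with ha
  set b : ℕ × ℕ → ℝ := fun p => (p.2 : ℝ) with hb
  have hlt : ∀ p ∈ P ∪ E, p.2 < H := by
    intro p hp
    rcases mem_union.mp hp with h | h
    · exact (hPm p h).2
    · rw [(hEm p h).2]; exact hH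
  have hinj : Set.InjOn a (P ∪ E : Finset (ℕ × ℕ)) := by
    intro p hp p' hp' e
    have h1 := hlt p hp
    have h2 := hlt p' hp'
    have e' : H * p.1 + p.2 = H * p'.1 + p'.2 := by simp only [ha] at e; exact_mod_cast e
    have e2 : p.2 = p'.2 := by
      have := congrArg (· % H) e'
      simpa [Nat.mod_eq_of_lt h1, Nat.mod_eq_of_lt h2] using this
    have e1 : p.1 = p'.1 := Nat.eq_of_mul_eq_mul_left hH (by omega)
    exact Prod.ext e1 e2
  obtain ⟨χ, hχ⟩ := colouring_finset (P ∪ E) a b hinj (hPne.mono subset_union_left)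
    (q := q) (by rw [hcard]; exact hc)
  obtain ⟨p0, -⟩ := id hPne
  obtain ⟨γ, -, hγ⟩ := exists_le_card_fiber_of_mul_le_card_of_maps_to (s := P) (t := univ)
    (f := χ) (n := m) (fun _ _ => mem_univ _) ⟨χ p0, mem_univ _⟩
    (by rw [card_univ, Fintype.card_fin, hPc]; exact Nat.mul_le_mul_right _ hq)
  obtain ⟨S, hS, hSc⟩ := exists_subset_card_eq hγ
  have hSP : S ⊆ P := hS.trans (filter_subset _ _)
  obtain ⟨u, hu, w, hw, v, hv, n1, n2, n3, l, i1, i2, i3, hl⟩ := hgood S hSP hSc
  set X := P.filter fun p => Inc k p l with hX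
  have hXS : X ⊆ S := by
    intro p hp
    by_contra h
    exact hl p (mem_filter.mp hp).1 h (mem_filter.mp hp).2
  have hX3 : 2 < X.card := two_lt_card.mpr ⟨u, mem_filter.mpr ⟨hSP hu, i1⟩, w,
    mem_filter.mpr ⟨hSP hw, i2⟩, v, mem_filter.mpr ⟨hSP hv, i3⟩, n1, n2, n3⟩
  obtain ⟨i, hi, hmi⟩ := exists_min_image X a (card_pos.mp (by omega))
  have c1 := card_erase_of_mem hi
  obtain ⟨j, hj, hmj⟩ := exists_min_image (X.erase i) a (card_pos.mp (by omega))
  have c2 := card_erase_of_mem hj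
  obtain ⟨k', hk, hmk⟩ := exists_min_image ((X.erase i).erase j) a (card_pos.mp (by omega))
  have hjX := mem_of_mem_erase hj
  have hk1 := mem_of_mem_erase hk
  have hkX := mem_of_mem_erase hk1
  have hXU : ∀ p ∈ X, p ∈ P ∪ E := fun p hp => mem_union_left _ (mem_filter.mp hp).1
  have hHr : (0 : ℝ) < H := by exact_mod_cast hH
  have hs : (0 : ℝ) < H + l.1 := by positivity
  have hline : ∀ p : ℕ × ℕ, b p = (l.1 / (H + l.1)) * a p + (l.2 - l.1 * k) * H / (H + l.1)
      ↔ Inc k p l := by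
    intro p
    simp only [ha, hb, Inc]
    rw [div_mul_eq_mul_div, ← add_div, eq_div_iff hs.ne']
    push_cast
    constructor
    · intro h
      have : (H : ℝ) * (p.2 + l.1 * k) = H * (l.2 + l.1 * p.1) := by linarith
      exact_mod_cast mul_left_cancel₀ hHr.ne' this
    · intro h
      have h' : (p.2 : ℝ) + l.1 * k = l.2 + l.1 * p.1 := by exact_mod_cast h
      linear_combination (H : ℝ) * h'
  have hcol : ∀ p ∈ X, χ p = γ := fun p hp => (mem_filter.mp (hS (hXS hp))).2
  refine hχ i (hXU i hi) j (hXU j hjX) k' (hXU k' hkX) _ _ ?_ ?_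
    ((hline i).mpr (mem_filter.mp hi).2) ((hline j).mpr (mem_filter.mp hjX).2)
    ((hline k').mpr (mem_filter.mp hkX).2) ?_
    ⟨(hcol i hi).trans (hcol j hjX).symm, (hcol j hjX).trans (hcol k' hkX).symm⟩
  · exact lt_of_le_of_ne (hmi j hjX) fun e =>
      (ne_of_mem_erase hj) (hinj (hXU i hi) (hXU j hjX) e).symm
  · exact lt_of_le_of_ne (hmj k' hk1) fun e =>
      (ne_of_mem_erase hk) (hinj (hXU j hjX) (hXU k' hkX) e).symm
  · intro p hp p1 p2 p3 hpl
    right
    rcases mem_union.mp hp with h | h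
    · have hpX : p ∈ X := mem_filter.mpr ⟨h, (hline p).mp hpl⟩
      exact lt_of_le_of_ne (hmk p (mem_erase.mpr ⟨p2, mem_erase.mpr ⟨p1, hpX⟩⟩)) fun e =>
        p3 (hinj (hXU k' hkX) hp e).symm
    · obtain ⟨t1, t2⟩ := hPm k' (mem_filter.mp hkX).1
      obtain ⟨t3, -⟩ := hEm p h
      simp only [ha]
      have : H * (k'.1 + 1) ≤ H * p.1 := Nat.mul_le_mul_left _ (by omega)
      have e : H * (k'.1 + 1) = H * k'.1 + H := by ring
      exact_mod_cast (by omega : H * k'.1 + k'.2 < H * p.1 + p.2)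

lemma hundred_lt (y : ℕ) : 100 * (y + 11) < 2048 * 2 ^ y := by
  induction y with
  | zero => norm_num
  | succ y ih =>
    have : 1 ≤ 2 ^ y := Nat.one_le_two_pow
    rw [pow_succ]; omega

theorem main_bound (y n q : ℕ)
    (hn : 2 ^ y * (15360000000 * (2048 * 2 ^ y) ^ 2 * (y + 11) ^ 5) ≤ n) (hc : Colourable Pl n q) :
    2 ^ y < q := by
  classical
  have hz := hundred_lt y
  obtain ⟨q0, hq0⟩ : ∃ q0, q0 = 2 ^ y := ⟨_, rfl⟩
  obtain ⟨z, hzdef⟩ : ∃ z, z = y + 11 := ⟨_, rfl⟩
  obtain ⟨k, hk⟩ : ∃ k, k = 2048 * q0 := ⟨_, rfl⟩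
  rw [← hq0, ← hzdef, ← hk] at hz hn
  rw [← hq0]
  have hkz : k = 2 ^ z := by rw [hk, hq0, hzdef, pow_add]; ring
  have hq : 1 ≤ q0 := hq0 ▸ Nat.one_le_two_pow
  have hz1 : 11 ≤ z := by omega
  obtain ⟨h, hh⟩ : ∃ h, h = 500000 * k * z ^ 3 := ⟨_, rfl⟩
  obtain ⟨w, hw⟩ : ∃ w, w = 2 * h := ⟨_, rfl⟩
  obtain ⟨m, hm⟩ : ∃ m, m = 15360000000 * k ^ 2 * z ^ 5 := ⟨_, rfl⟩
  rw [← hm] at hn
  have hz3 : 1 ≤ z ^ 3 := Nat.one_le_pow _ _ (by omega)
  have hk1 : 1 ≤ k := by omega
  have hkw : k ≤ w := by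
    calc k = 1 * k * 1 := by ring
      _ ≤ 1000000 * k * z ^ 3 := by gcongr; norm_num
      _ = w := by rw [hw, hh]; ring
  have hVc : (range k ×ˢ range (w ^ 2 * k)).card = 1000000000000 * k ^ 4 * z ^ 6 := by
    rw [card_product, card_range, card_range, hw, hh]; ring
  have hn1 : 1000000000000 * k ^ 4 * z ^ 6 + 1 ≤ 2 ^ (10 * z) := by
    have h1 : (100 * z) ^ 6 < k ^ 6 := Nat.pow_lt_pow_left hz (by norm_num)
    have h2 : k ^ 4 * (100 * z) ^ 6 < k ^ 4 * k ^ 6 := Nat.mul_lt_mul_of_pos_left h1 (by positivity)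
    have h3 : 2 ^ (10 * z) = k ^ 4 * k ^ 6 := by rw [hkz, ← pow_add, ← pow_mul, mul_comm]
    have h4 : k ^ 4 * (100 * z) ^ 6 = 1000000000000 * k ^ 4 * z ^ 6 := by ring
    omega
  have h24 : 24 * k * (q0 * m) ≤ 1000000000000 * k ^ 4 * z ^ 6 := by
    calc 24 * k * (q0 * m) = 180000000 * k ^ 4 * (z ^ 5 * 1) := by rw [hm, hk]; ring
      _ ≤ 1000000000000 * k ^ 4 * (z ^ 5 * z) := by gcongr <;> omega
      _ = _ := by ring
  have h2N : 2 * (q0 * m) ≤ 1000000000000 * k ^ 4 * z ^ 6 :=
    le_trans (Nat.mul_le_mul_right _ (by omega)) h24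
  have hm0 : 0 < m := by rw [hm]; positivity
  obtain ⟨P, hPV, hPc, hgood⟩ := exists_good (I := Inc k)
    (L := range (w ^ 2) ×ˢ range (2 * (w ^ 2 * k))) (range k ×ˢ range (w ^ 2 * k))
    (fun x y l l' hxy _ _ => inc_uniq k x y l l' hxy) (k := k) (w := w) (h := h) (m := m)
    (N := q0 * m) (J := z) hw hkw (by omega)
    (fun l _ => inc_size k (w ^ 2 * k) l) (fun x hx => inc_deg k (w ^ 2) x hx)
    (by rw [card_product, card_range, card_range]; apply le_of_eq; ring)
    (by rw [card_product, card_range, card_range, ← hkz]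
        calc k * (w ^ 2 * k) = 1 * (w ^ 2 * k) * k := by ring
          _ ≤ _ := by gcongr; norm_num)
    (Nat.le_mul_of_pos_left _ hq) (by rw [hVc]; exact h2N) (by rw [hVc]; positivity)
    (by
      rw [hVc]
      refine condA hn1 (by positivity) ?_ ?_
      · have e : m = 2 * (10 * z * (768 * w * k * z)) := by rw [hm, hw, hh]; ring
        have : 2 ≤ 10 * z * (768 * w * k * z) := by
          calc 2 ≤ 10 * 1 * (768 * 1 * 1 * 1) := by norm_num
            _ ≤ _ := by gcongr <;> omega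
        omega
      · apply le_of_le_of_eq (b := m * (k * (w ^ 2 * k)))
        · calc 12 * (q0 * m) * (128 * (w ^ 2 * k)) = m * ((1536 * q0) * (w ^ 2 * k)) := by ring
            _ ≤ _ := by gcongr; omega
        · rw [hw, hh]; ring)
    (by
      rw [hVc]
      have e : w ^ 2 * k = 2 * (w * h) * k := by rw [pow_two]; nth_rewrite 2 [hw]; ring
      rw [e]
      refine condB (l := 10 * z) (by omega) h2N ?_ h24
      have h1 : 10 * z ≤ 10 * z * m := Nat.le_mul_of_pos_right _ hm0
      have h2 : 3 * (10 * z * m) ≤ w * h := by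
        calc 3 * (10 * z * m) = 460800000000 * k ^ 2 * z ^ 6 := by rw [hm]; ring
          _ ≤ 500000000000 * k ^ 2 * z ^ 6 := by gcongr; norm_num
          _ = w * h := by rw [hw, hh]; ring
      omega)
  exact grid_bound P hPV hPc hm0 hq (unpack_good hgood) hn hc

end Pool.Agent.Lib.MP_bfa5ed_co
end

-- part Pool.Agent.Lib.MP_bfa5ed_co.Final
section

namespace Pool.Agent.Lib.MP_bfa5ed_co

def Nn (y : ℕ) : ℕ := 2 ^ y * (15360000000 * (2048 * 2 ^ y) ^ 2 * (y + 11) ^ 5)

lemma Nn_ge (y : ℕ) : (2 ^ y) ^ 3 ≤ Nn y := by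
  unfold Nn
  calc (2 ^ y) ^ 3 = 2 ^ y * (1 * (1 * 2 ^ y) ^ 2 * 1) := by ring
    _ ≤ _ := by
      gcongr
      · norm_num
      · norm_num
      · exact Nat.one_le_pow _ _ (by omega)

lemma Nn_succ (y : ℕ) (hy : 10 ^ 19 ≤ y) : Nn (y + 1) ≤ (2 ^ y) ^ 3 * (2 * y) ^ 6 := by
  unfold Nn
  have h1 : y + 1 + 11 ≤ 2 * y := by omega
  generalize hc : 2 ^ y = c
  rw [pow_succ 2 y, hc]
  calc c * 2 * (15360000000 * (2048 * (c * 2)) ^ 2 * (y + 1 + 11) ^ 5)
      ≤ c * 2 * (15360000000 * (2048 * (c * 2)) ^ 2 * (2 * y) ^ 5) := by gcongr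
    _ = c ^ 3 * ((2 * y) ^ 5 * 515396075520000000) := by ring
    _ ≤ c ^ 3 * ((2 * y) ^ 5 * (2 * y)) := by gcongr; omega
    _ = _ := by ring

theorem final : ∃ n₀ : ℕ, ∀ n ≥ n₀, ∀ q : ℕ, Colourable Pl n q →
    (n : ℝ) ^ (1 / 3 : ℝ) / Real.log n ^ 2 < q := by
  obtain ⟨y0, hy0⟩ : ∃ y0 : ℕ, 10 ^ 19 ≤ y0 := ⟨_, le_rfl⟩
  refine ⟨Nn y0, fun n hn q hc => ?_⟩
  have hex : ∃ j, n < Nn (y0 + j + 1) := by
    refine ⟨n, lt_of_lt_of_le ?_ (Nn_ge _)⟩
    calc n < 2 ^ n := Nat.lt_two_pow_self
      _ ≤ 2 ^ (y0 + n + 1) := Nat.pow_le_pow_right (by norm_num) (by omega)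
      _ ≤ _ := Nat.le_self_pow (by norm_num) _
  obtain ⟨y, hy1, hy2, hy3⟩ : ∃ y, 10 ^ 19 ≤ y ∧ Nn y ≤ n ∧ n < Nn (y + 1) := by
    refine ⟨y0 + Nat.find hex, by omega, ?_, Nat.find_spec hex⟩
    rcases Nat.eq_zero_or_pos (Nat.find hex) with h | h
    · rw [h]; exact hn
    · have := Nat.find_min hex (m := Nat.find hex - 1) (by omega)
      rw [show y0 + (Nat.find hex - 1) + 1 = y0 + Nat.find hex by omega] at this
      omega
  have h1 := main_bound y n q hy2 hc
  have h2 := hy3.trans_le (Nn_succ y hy1)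
  have h3 := (Nn_ge y).trans hy2
  have hy0' : (0 : ℝ) < y := by exact_mod_cast (by omega : 0 < y)
  have h4 : 2 * (y : ℝ) ≤ Real.log n := by
    have a1 : (((2 : ℝ) ^ y) ^ 3) ≤ n := by exact_mod_cast h3
    have a2 := Real.log_le_log (by positivity) a1
    rw [Real.log_pow, Real.log_pow] at a2
    have a3 := Real.log_two_gt_d9
    push_cast at a2
    nlinarith
  have h5 : (n : ℝ) < (q * Real.log n ^ 2) ^ 3 := by
    have a1 : (n : ℝ) < ((2 : ℝ) ^ y) ^ 3 * (2 * y) ^ 6 := by exact_mod_cast h2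
    have a2 : (2 : ℝ) ^ y ≤ q := by exact_mod_cast h1.le
    calc (n : ℝ) < ((2 : ℝ) ^ y) ^ 3 * (2 * y) ^ 6 := a1
      _ ≤ (q : ℝ) ^ 3 * Real.log n ^ 6 := by gcongr
      _ = _ := by ring
  have hl : 0 < Real.log n := by linarith
  rw [div_lt_iff₀ (by positivity)]
  have h6 := Real.rpow_lt_rpow (Nat.cast_nonneg n) h5 (z := 1 / 3) (by norm_num)
  rwa [← Real.rpow_natCast _ 3, ← Real.rpow_mul (by positivity), show ((3 : ℕ) : ℝ) * (1 / 3) = 1 by
    norm_num, Real.rpow_one] at h6

end Pool.Agent.Lib.MP_bfa5ed_co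
end
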