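import Pool.Agent.Lib.MP_bfa5ed_co.Final

open Topology Filter

namespace Pool.Agent.Lib.MP_bfa5ed_co

lemma line_eq (l : AffineSubspace ℝ Pl) (h : Module.finrank ℝ l.direction = 1) (p : Pl)
    (hp : p ∉ l) : ∃ A B C : ℝ, (A ≠ 0 ∨ B ≠ 0) ∧ (∀ q, q ∈ l ↔ A * q 0 + B * q 1 + C = 0) ∧
      (∀ v, v ∈ l.direction ↔ A * v 0 + B * v 1 = 0) ∧ l ≠ ⊥ ∧ 0 < A * p 0 + B * p 1 + C := by
  obtain ⟨⟨v, hv⟩, hv0, hall⟩ := finrank_eq_one_iff'.mp h
  have hv0' : v ≠ 0 := fun e => hv0 (Subtype.ext e)
  have hne : l ≠ ⊥ := by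
    rintro rfl
    rw [AffineSubspace.direction_bot] at hv
    exact hv0' (by simpa using hv)
  obtain ⟨p0, hp0⟩ := (AffineSubspace.nonempty_iff_ne_bot l).mpr hne
  have hc : v 0 ≠ 0 ∨ v 1 ≠ 0 := by
    by_contra hc
    push Not at hc
    apply hv0'
    ext i
    fin_cases i
    · exact hc.1
    · exact hc.2
  have hdir : ∀ w : Pl, w ∈ l.direction ↔ -v 1 * w 0 + v 0 * w 1 = 0 := by
    intro w
    constructor
    · intro hw
      obtain ⟨c, hc⟩ := hall ⟨w, hw⟩
      have e : c • v = w := congrArg Subtype.val hc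
      rw [← e]
      simp
      ring
    · intro hw
      rcases hc with hc | hc
      · have : w = (w 0 / v 0) • v := by
          ext i
          fin_cases i
          · simp; field_simp
          · simp; field_simp; linarith
        rw [this]; exact Submodule.smul_mem _ _ hv
      · have : w = (w 1 / v 1) • v := by
          ext i
          fin_cases i
          · simp; field_simp; linarith
          · simp; field_simp
        rw [this]; exact Submodule.smul_mem _ _ hv
  have hmem : ∀ q : Pl, q ∈ l ↔ -v 1 * q 0 + v 0 * q 1 + (v 1 * p0 0 - v 0 * p0 1) = 0 := by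
    intro q
    rw [← AffineSubspace.vsub_right_mem_direction_iff_mem hp0, hdir]
    simp only [vsub_eq_sub, PiLp.sub_apply]
    constructor <;> intro h <;> linarith
  have hp' := fun e => hp ((hmem p).mpr e)
  rcases lt_or_gt_of_ne hp' with hlt | hgt
  · refine ⟨v 1, -v 0, -(v 1 * p0 0 - v 0 * p0 1), ?_, fun q => ?_, fun w => ?_, hne, by linarith⟩
    · rcases hc with hc | hc
      · right; exact neg_ne_zero.mpr hc
      · left; exact hc
    · rw [hmem]; constructor <;> intro h <;> linarith
    · rw [hdir]; constructor <;> intro h <;> linarith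
  · refine ⟨-v 1, v 0, v 1 * p0 0 - v 0 * p0 1, ?_, hmem, hdir, hne, hgt⟩
    rcases hc with hc | hc
    · right; exact hc
    · left; exact neg_ne_zero.mpr hc

lemma exists_facet {ι : Type} [Fintype ι] (A B C : ι → ℝ)
    (hcross : ∀ i j, i ≠ j → A i * B j - A j * B i ≠ 0) (hAB : ∀ i, A i ≠ 0 ∨ B i ≠ 0) (p : Pl)
    (hp : ∀ i, 0 < A i * p 0 + B i * p 1 + C i) (d : Pl) (hd : ∃ i, A i * d 0 + B i * d 1 < 0) :
    ∃ i, A i * d 0 + B i * d 1 < 0 ∧ ∃ q q' : Pl, q ≠ q' ∧ ∀ y ∈ segment ℝ q q',
      A i * y 0 + B i * y 1 + C i = 0 ∧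
        y ∈ frontier {r : Pl | ∀ j, 0 < A j * r 0 + B j * r 1 + C j} := by
  classical
  have hd0 : d 0 ^ 2 + d 1 ^ 2 ≠ 0 := by
    obtain ⟨i, hi⟩ := hd
    intro h
    have h0 : d 0 = 0 := by nlinarith [sq_nonneg (d 0), sq_nonneg (d 1)]
    have h1 : d 1 = 0 := by nlinarith [sq_nonneg (d 0), sq_nonneg (d 1)]
    rw [h0, h1] at hi; simp at hi
  set lin : ι → ℝ := fun i => A i * d 0 + B i * d 1 with hlin
  set G : ι → ℝ → ℝ := fun i s => A i * (p 0 - s * d 1) + B i * (p 1 + s * d 0) + C i with hG
  have ev1 : ∀ᶠ s in 𝓝[≠] (0 : ℝ), ∀ i, 0 < G i s := by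
    simp only [eventually_all]
    intro i
    have : Continuous (G i) := by simp only [hG]; fun_prop
    have h2 := this.tendsto 0
    refine (h2.eventually (lt_mem_nhds ?_)).filter_mono nhdsWithin_le_nhds
    simpa [hG] using hp i
  have ev2 : ∀ᶠ s in 𝓝[≠] (0 : ℝ), ∀ i j, i ≠ j → G i s * lin j - G j s * lin i ≠ 0 := by
    simp only [eventually_all]
    intro i j hij
    have e : ∀ s, G i s * lin j - G j s * lin i = (G i 0 * lin j - G j 0 * lin i)
        - s * ((A i * B j - A j * B i) * (d 0 ^ 2 + d 1 ^ 2)) := by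
      intro s; simp only [hG, hlin]; ring
    generalize G i 0 * lin j - G j 0 * lin i = c at e
    simp only [e]
    have hκ := mul_ne_zero (hcross i j hij) hd0
    generalize (A i * B j - A j * B i) * (d 0 ^ 2 + d 1 ^ 2) = κ at hκ
    by_cases hc : c = 0
    · filter_upwards [self_mem_nhdsWithin] with s hs
      rw [hc, zero_sub]
      exact neg_ne_zero.mpr (mul_ne_zero hs hκ)
    · have : Continuous fun s : ℝ => c - s * κ := by fun_prop
      refine ((this.tendsto 0).eventually_ne ?_).filter_mono nhdsWithin_le_nhds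
      simpa using hc
  obtain ⟨s, hs1, hs2⟩ := (ev1.and ev2).exists
  obtain ⟨i, hi, hmin⟩ := Finset.exists_min_image (Finset.univ.filter fun i => lin i < 0)
    (fun i => G i s / -lin i) (by
      obtain ⟨i, hi⟩ := hd
      exact ⟨i, Finset.mem_filter.mpr ⟨Finset.mem_univ _, hi⟩⟩)
  have hi' : lin i < 0 := (Finset.mem_filter.mp hi).2
  set t := G i s / -lin i with ht
  have ht0 : 0 < t := div_pos (hs1 i) (by linarith)
  have hti : G i s + t * lin i = 0 := by
    rw [ht]; have := hi'.ne; field_simp; ring
  have htj : ∀ j, j ≠ i → 0 < G j s + t * lin j := by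
    intro j hj
    rcases lt_or_ge (lin j) 0 with h | h
    · have h1 := hmin j (Finset.mem_filter.mpr ⟨Finset.mem_univ _, h⟩)
      rw [le_div_iff₀ (by linarith)] at h1
      refine lt_of_le_of_ne (by linarith) fun e => hs2 j i hj ?_
      have e1 : G j s = -(t * lin j) := by linarith
      have e2 : G i s = -(t * lin i) := by linarith
      rw [e1, e2]; ring
    · have := mul_nonneg ht0.le h
      linarith [hs1 j]
  set x0 := p 0 - s * d 1 + t * d 0 with hx0
  set x1 := p 1 + s * d 0 + t * d 1 with hx1
  have hxi : A i * x0 + B i * x1 + C i = 0 := by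
    simp only [hG, hlin] at hti; rw [hx0, hx1]; linarith
  have hxj : ∀ j, j ≠ i → 0 < A j * x0 + B j * x1 + C j := by
    intro j hj
    have := htj j hj
    simp only [hG, hlin] at this; rw [hx0, hx1]; linarith
  have ev3 : ∀ᶠ u in 𝓝[>] (0 : ℝ), ∀ j, j ≠ i →
      0 < A j * (x0 - u * B i) + B j * (x1 + u * A i) + C j := by
    simp only [eventually_all]
    intro j hj
    have : Continuous fun u : ℝ => A j * (x0 - u * B i) + B j * (x1 + u * A i) + C j := by fun_prop
    refine ((this.tendsto 0).eventually (lt_mem_nhds ?_)).filter_mono nhdsWithin_le_nhds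
    simpa using hxj j hj
  obtain ⟨u, hu1, hu0⟩ := (ev3.and self_mem_nhdsWithin).exists
  have hu0' : 0 < u := hu0
  refine ⟨i, hi', !₂[x0, x1], !₂[x0 - u * B i, x1 + u * A i], ?_, ?_⟩
  · intro e
    have e0 := congrArg (fun v : Pl => v 0) e
    have e1 := congrArg (fun v : Pl => v 1) e
    simp at e0 e1
    rcases hAB i with h | h
    · rcases e1 with e1 | e1
      · exact hu0'.ne' e1
      · exact h e1
    · have : u * B i = 0 := by linarith
      exact mul_ne_zero hu0'.ne' h this
  · rintro y ⟨a, b, ha, hb, hab, rfl⟩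
    set y : Pl := a • !₂[x0, x1] + b • !₂[x0 - u * B i, x1 + u * A i] with hy
    have y0 : y 0 = a * x0 + b * (x0 - u * B i) := by simp [hy]
    have y1 : y 1 = a * x1 + b * (x1 + u * A i) := by simp [hy]
    have hyi : A i * y 0 + B i * y 1 + C i = 0 := by
      rw [y0, y1]
      have : a = 1 - b := by linarith
      rw [this]; linear_combination hxi
    have hyj : ∀ j, j ≠ i → 0 < A j * y 0 + B j * y 1 + C j := by
      intro j hj
      have h1 := hxj j hj
      have h2 := hu1 j hj
      have e : A j * y 0 + B j * y 1 + C j = a * (A j * x0 + B j * x1 + C j) +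
          b * (A j * (x0 - u * B i) + B j * (x1 + u * A i) + C j) := by
        rw [y0, y1]; linear_combination (-C j) * hab
      rw [e]
      rcases ha.eq_or_lt with h | h
      · have : b = 1 := by linarith
        rw [← h, this]; linarith
      · have := mul_pos h h1
        have := mul_nonneg hb h2.le
        linarith
    refine ⟨hyi, ?_, fun hint => ?_⟩
    · have hc : Continuous fun τ : ℝ => y - τ • d := by fun_prop
      have ht : Tendsto (fun τ : ℝ => y - τ • d) (𝓝[>] 0) (𝓝 y) := by
        have := hc.tendsto 0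
        simp only [zero_smul, sub_zero] at this
        exact this.mono_left nhdsWithin_le_nhds
      refine mem_closure_of_tendsto ht ?_
      simp only [Set.mem_ofPred_eq, eventually_all, PiLp.sub_apply, PiLp.smul_apply, smul_eq_mul]
      intro j
      by_cases hj : j = i
      · subst hj
        filter_upwards [self_mem_nhdsWithin] with τ hτ
        have := mul_pos (show 0 < τ from hτ) (neg_pos.mpr hi')
        simp only [hlin] at this
        linarith
      · have : Continuous fun τ : ℝ => A j * (y 0 - τ * d 0) + B j * (y 1 - τ * d 1) + C j := by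
          fun_prop
        refine ((this.tendsto 0).eventually (lt_mem_nhds ?_)).filter_mono nhdsWithin_le_nhds
        simpa using hyj j hj
    · have := interior_subset hint i
      linarith

theorem colourable_self {n : ℕ} (hn : 2 ≤ n) : Colourable Pl n n := by
  classical
  intro L hL ⟨h1, h2, _⟩
  refine ⟨fun l => Fin.cast hL (L.equivFin l), ?_⟩
  rintro K ⟨p, hp, rfl⟩ ⟨γ, hγ⟩
  choose A B C hAB hmem hdir hne hpos using fun l : L => line_eq l.1 (h1 _ l.2) p (hp _ l.2)
  have hcross : ∀ i j : L, i ≠ j → A i * B j - A j * B i ≠ 0 := by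
    intro i j hij e
    refine h2 _ i.2 _ j.2 (fun h => hij (Subtype.ext h)) ?_
    rw [AffineSubspace.parallel_iff_direction_eq_and_eq_bot_iff_eq_bot]
    refine ⟨?_, iff_of_false (hne i) (hne j)⟩
    have key : ∀ i j : L, A i * B j - A j * B i = 0 → ∀ v : Pl, A i * v 0 + B i * v 1 = 0 →
        A j * v 0 + B j * v 1 = 0 := by
      intro i j e v hv
      rcases hAB i with h | h
      · exact mul_left_cancel₀ h (by linear_combination A j * hv + v 1 * e)
      · exact mul_left_cancel₀ h (by linear_combination B j * hv - v 0 * e)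
    ext v
    rw [hdir, hdir]
    exact ⟨key i j e v, key j i (by linarith) v⟩
  have hK : connectedComponentIn {q | ∀ l ∈ L, q ∉ l} p
      = {r : Pl | ∀ j, 0 < A j * r 0 + B j * r 1 + C j} := by
    apply Set.Subset.antisymm
    · intro q hq j
      exact sign_const (U := {q | ∀ l ∈ L, q ∉ l})
        (f := fun r : Pl => A j * r 0 + B j * r 1 + C j) (by fun_prop)
        (fun r hr e => hr _ j.2 ((hmem j r).mpr e)) hp (hpos j) q hq
    · refine IsPreconnected.subset_connectedComponentIn (Convex.isPreconnected ?_) hpos ?_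
      · intro x hx y hy a b ha hb hab j
        have h1 := hx j
        have h2 := hy j
        have e : A j * (a • x + b • y) 0 + B j * (a • x + b • y) 1 + C j
            = a * (A j * x 0 + B j * x 1 + C j) + b * (A j * y 0 + B j * y 1 + C j) := by
          simp only [PiLp.add_apply, PiLp.smul_apply, smul_eq_mul]
          linear_combination (-C j) * hab
        rw [e]
        rcases ha.eq_or_lt with h | h
        · have : b = 1 := by linarith
          rw [← h, this]; linarith
        · have := mul_pos h h1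
          have := mul_nonneg hb h2.le
          linarith
      · intro q hq l hl hql
        have := hq ⟨l, hl⟩
        rw [(hmem ⟨l, hl⟩ q).mp hql] at this
        exact lt_irrefl _ this
  have facet : ∀ d : Pl, (∃ i, A i * d 0 + B i * d 1 < 0) →
      ∃ i, A i * d 0 + B i * d 1 < 0 ∧ Fin.cast hL (L.equivFin i) = γ := by
    intro d hd
    obtain ⟨i, hi, q, q', hqq, hs⟩ := exists_facet A B C hcross hAB p hpos d hd
    refine ⟨i, hi, hγ i ⟨q, q', hqq, fun y hy => ⟨(hmem i y).mpr (hs y hy).1, ?_⟩⟩⟩
    rw [hK]; exact (hs y hy).2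
  have hnt : Nontrivial L := by
    rw [← Fintype.one_lt_card_iff_nontrivial, Fintype.card_coe]; omega
  obtain ⟨i0⟩ : Nonempty L := inferInstance
  obtain ⟨i, -, hi⟩ := facet !₂[-A i0, -B i0] ⟨i0, by
    have : 0 < A i0 ^ 2 + B i0 ^ 2 := by
      rcases hAB i0 with h | h <;> positivity
    simp; linarith⟩
  obtain ⟨j, hj⟩ := exists_ne i
  have hc := hcross i j hj.symm
  have fin : ∀ σ : ℝ, σ * (A i * B j - A j * B i) < 0 → False := by
    intro σ hσ
    obtain ⟨k, hk, hk'⟩ := facet !₂[-σ * B i, σ * A i] ⟨j, by simp; linarith⟩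
    have : k = i := L.equivFin.injective (Fin.cast_injective hL (hk'.trans hi.symm))
    rw [this] at hk
    simp at hk
    linarith
  rcases lt_or_gt_of_ne hc with h | h
  · exact fin 1 (by linarith)
  · exact fin (-1) (by linarith)

end Pool.Agent.Lib.MP_bfa5ed_co
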